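import Pool.Agent.H44.SP.Fl
import Pool.Agent.H44.CM.An

/-!
# [H44 SP Cv] Derivatives along the flow lines in the sphere
-/

set_option autoImplicit false

namespace Pool.Agent.H44.SP

open MeasureTheory Metric Pool.Agent.H74.CB Filter Topology

variable {n : ℕ}

theorem curve (i j : Fin n) (hij : i ≠ j) (f tf : V n → ℂ) (hf : ContinuousOn f (closedBall (0 : V n) 1))
    (hf' : DifferentiableOn ℂ f (ball (0 : V n) 1)) (hT : Tg i j f tf) (e : ℂ) (he : ‖e‖ = 1)
    (ζ : V n) (hζ : ‖ζ‖ = 1) (t : ℝ) :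
    HasDerivAt (fun s : ℝ => f (fl i j e s ζ)) (e * tf (fl i j e t ζ)) t := by
  have hn : ∀ s, ‖fl i j e s ζ‖ = 1 := fun s => by rw [fl_norm i j hij e he, hζ]
  have hr : ∀ᶠ r : ℝ in 𝓝[<] (1 : ℝ), 0 < r ∧ r < 1 := by
    have : Set.Ioo (0 : ℝ) 1 ∈ 𝓝[<] (1 : ℝ) := Ioo_mem_nhdsLT one_pos
    filter_upwards [this] with r hr
    exact hr
  have hball : ∀ r : ℝ, 0 < r → r < 1 → ∀ s, r • fl i j e s ζ ∈ ball (0 : V n) 1 := by
    intro r h0 h1 s
    rw [mem_ball_zero_iff, norm_smul, hn, mul_one, Real.norm_eq_abs, abs_of_pos h0]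
    exact h1
  have hcl : ∀ s, fl i j e s ζ ∈ closedBall (0 : V n) 1 := by
    intro s; rw [mem_closedBall_zero_iff, hn]
  refine hasDerivAt_of_tendstoUniformly (l := 𝓝[<] (1 : ℝ)) (f := fun r s => f (r • fl i j e s ζ))
    (f' := fun r s => e * tf (r • fl i j e s ζ)) (g' := fun s => e * tf (fl i j e s ζ)) ?_ ?_ ?_ t
  · rw [Metric.tendstoUniformly_iff]
    intro ε hε
    have huc : UniformContinuousOn tf (closedBall (0 : V n) 1) :=
      (isCompact_closedBall _ _).uniformContinuousOn_of_continuous hT.1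
    rw [Metric.uniformContinuousOn_iff] at huc
    obtain ⟨δ, hδ, hu⟩ := huc ε hε
    have h1 : ∀ᶠ r : ℝ in 𝓝[<] (1 : ℝ), 1 - δ < r := by
      have : Set.Ioo (1 - δ) 1 ∈ 𝓝[<] (1 : ℝ) := Ioo_mem_nhdsLT (by linarith)
      filter_upwards [this] with r hr
      exact hr.1
    filter_upwards [hr, h1] with r hr1 hr2 s
    rw [dist_eq_norm, ← mul_sub, norm_mul, he, one_mul, ← dist_eq_norm]
    apply hu _ (hcl s) _ (ball_subset_closedBall (hball r hr1.1 hr1.2 s))
    rw [dist_eq_norm]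
    have : fl i j e s ζ - r • fl i j e s ζ = (1 - r) • fl i j e s ζ := by rw [sub_smul, one_smul]
    rw [this, norm_smul, hn, mul_one, Real.norm_eq_abs, abs_of_pos (by linarith)]
    linarith
  · filter_upwards [hr] with r hr1 s
    have hx := hball r hr1.1 hr1.2 s
    have h1 : HasFDerivAt f (fderiv ℂ f (r • fl i j e s ζ)) (r • fl i j e s ζ) :=
      (hf'.differentiableAt (isOpen_ball.mem_nhds hx)).hasFDerivAt
    have h2 := (h1.restrictScalars ℝ).comp_hasDerivAt s ((fl_deriv i j hij e he s ζ).const_smul r)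
    have h3 : ((fderiv ℂ f (r • fl i j e s ζ)).restrictScalars ℝ) (r • e • jj i j (fl i j e s ζ)) =
        e * tf (r • fl i j e s ζ) := by
      rw [hT.2 _ hx]
      have h4 : jj i j (r • fl i j e s ζ) = r • jj i j (fl i j e s ζ) := by
        have := jj_smul i j (r : ℂ) (fl i j e s ζ)
        rw [Complex.conj_ofReal] at this
        exact this
      rw [h4]
      show fderiv ℂ f (r • fl i j e s ζ) (r • e • jj i j (fl i j e s ζ)) = _
      rw [smul_comm r e, map_smul, smul_eq_mul]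
    rw [h3] at h2
    exact h2
  · intro s
    have h1 : Tendsto (fun r : ℝ => r • fl i j e s ζ) (𝓝[<] (1 : ℝ)) (𝓝[closedBall (0 : V n) 1] (fl i j e s ζ)) := by
      rw [tendsto_nhdsWithin_iff]
      constructor
      · have : Tendsto (fun r : ℝ => r • fl i j e s ζ) (𝓝 (1 : ℝ)) (𝓝 ((1 : ℝ) • fl i j e s ζ)) :=
          (continuous_id.smul continuous_const).tendsto 1
        rw [one_smul] at this
        exact this.mono_left nhdsWithin_le_nhds
      · filter_upwards [hr] with r hr1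
        exact ball_subset_closedBall (hball r hr1.1 hr1.2 s)
    exact (hf _ (hcl s)).tendsto.comp h1

/-- the unit vector -/
noncomputable def un (z : V n) : V n := (‖z‖⁻¹ : ℝ) • z

theorem norm_un (z : V n) (hz : z ≠ 0) : ‖un z‖ = 1 := by
  rw [un, norm_smul, norm_inv, norm_norm, inv_mul_cancel₀ (norm_ne_zero_iff.mpr hz)]

theorem norm_smul_un (z : V n) (hz : z ≠ 0) : (‖z‖ : ℝ) • un z = z := by
  rw [un, smul_smul, mul_inv_cancel₀ (norm_ne_zero_iff.mpr hz), one_smul]

theorem cont_un (φ : V n → ℂ) (hφ : ContinuousOn φ (closedBall (0 : V n) 1)) :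
    ContinuousOn (fun z => φ (un z)) ({0}ᶜ : Set (V n)) := by
  refine hφ.comp (t := closedBall (0 : V n) 1) ?_ ?_
  · unfold un
    have h1 : ContinuousOn (fun z : V n => (‖z‖⁻¹ : ℝ)) ({0}ᶜ : Set (V n)) :=
      ContinuousOn.inv₀ continuous_norm.continuousOn fun z hz => norm_ne_zero_iff.mpr hz
    have h2 : ContinuousOn (fun z : V n => z) ({0}ᶜ : Set (V n)) := continuousOn_id
    exact h1.smul h2
  · intro z hz
    show un z ∈ closedBall (0 : V n) 1
    rw [mem_closedBall_zero_iff, norm_un z hz]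

theorem un_fl (i j : Fin n) (hij : i ≠ j) (e : ℂ) (he : ‖e‖ = 1) (t : ℝ) (z : V n) :
    un (fl i j e t z) = fl i j e t (un z) := by
  rw [un, un, fl_smul, fl_norm i j hij e he]

theorem isOpen_pb : IsOpen ((ball (0 : V n) 1) ∩ ({0}ᶜ : Set (V n))) :=
  isOpen_ball.inter isOpen_compl_singleton

theorem part_null (i j : Fin n) (hij : i ≠ j) (f g tf tg : V n → ℂ)
    (hf : ContinuousOn f (closedBall (0 : V n) 1)) (hf' : DifferentiableOn ℂ f (ball (0 : V n) 1))
    (hg : ContinuousOn g (closedBall (0 : V n) 1)) (hg' : DifferentiableOn ℂ g (ball (0 : V n) 1))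
    (hTf : Tg i j f tf) (hTg : Tg i j g tg) (e : ℂ) (he : ‖e‖ = 1) :
    (volume : Measure (V n)) {z | z ∈ (ball (0 : V n) 1) ∩ {0}ᶜ ∧ ‖f (un z)‖ = ‖g (un z)‖ ∧
      (e * ((starRingEnd ℂ) (f (un z)) * tf (un z) - (starRingEnd ℂ) (g (un z)) * tg (un z))).re ≠ 0} = 0 := by
  have hsub : (ball (0 : V n) 1) ∩ {0}ᶜ ⊆ ({0}ᶜ : Set (V n)) := Set.inter_subset_right
  have c1 := (cont_un f hf).mono hsub
  have c2 := (cont_un g hg).mono hsub
  have c3 := (cont_un tf hTf.1).mono hsub
  have c4 := (cont_un tg hTg.1).mono hsub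
  refine flow_null (fl i j e) (fl_cont i j e) (fl_mp i j hij e he) 1 one_pos _ ?_ (Eventually.of_forall ?_)
  · have m1 := Pool.Agent.H44.CM.measurableSet_zero (F := ℝ) isOpen_pb (f := fun z => ‖f (un z)‖ - ‖g (un z)‖)
      (c1.norm.sub c2.norm)
    have m2 := Pool.Agent.H44.CM.measurableSet_zero (F := ℝ) isOpen_pb
      (f := fun z => (e * ((starRingEnd ℂ) (f (un z)) * tf (un z) - (starRingEnd ℂ) (g (un z)) * tg (un z))).re)
      (Complex.continuous_re.comp_continuousOn (continuousOn_const.mul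
        (((Complex.continuous_conj.comp_continuousOn c1).mul c3).sub
          ((Complex.continuous_conj.comp_continuousOn c2).mul c4))))
    have : {z | z ∈ (ball (0 : V n) 1) ∩ {0}ᶜ ∧ ‖f (un z)‖ = ‖g (un z)‖ ∧
      (e * ((starRingEnd ℂ) (f (un z)) * tf (un z) - (starRingEnd ℂ) (g (un z)) * tg (un z))).re ≠ 0} =
      {z ∈ (ball (0 : V n) 1) ∩ {0}ᶜ | ‖f (un z)‖ - ‖g (un z)‖ = 0} \
      {z ∈ (ball (0 : V n) 1) ∩ {0}ᶜ |
        (e * ((starRingEnd ℂ) (f (un z)) * tf (un z) - (starRingEnd ℂ) (g (un z)) * tg (un z))).re = 0} := by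
      ext z
      constructor
      · rintro ⟨h1, h2, h3⟩
        exact ⟨⟨h1, sub_eq_zero.mpr h2⟩, fun h4 => h3 h4.2⟩
      · rintro ⟨⟨h1, h2⟩, h3⟩
        exact ⟨h1, sub_eq_zero.mp h2, fun h4 => h3 ⟨h1, h4⟩⟩
    rw [this]
    exact m1.diff m2
  · intro z
    by_cases hz : z = 0
    · refine measure_mono_null ?_ measure_empty
      rintro t ⟨_, ⟨_, h1⟩, _⟩
      apply h1
      have : ‖fl i j e t z‖ = 0 := by rw [fl_norm i j hij e he, hz, norm_zero]
      exact norm_eq_zero.mp this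
    · have hζ := norm_un z hz
      have d1 := curve i j hij f tf hf hf' hTf e he (un z) hζ
      have d2 := curve i j hij g tg hg hg' hTg e he (un z) hζ
      have d3 : ∀ t, HasDerivAt (fun s : ℝ => ‖f (fl i j e s (un z))‖ ^ 2 - ‖g (fl i j e s (un z))‖ ^ 2)
          (2 * inner ℝ (f (fl i j e t (un z))) (e * tf (fl i j e t (un z))) -
            2 * inner ℝ (g (fl i j e t (un z))) (e * tg (fl i j e t (un z)))) t :=
        fun t => (d1 t).norm_sq.sub (d2 t).norm_sq
      refine measure_mono_null ?_ (level_null _ _ d3)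
      rintro t ⟨_, _, h2, h3⟩
      rw [un_fl i j hij e he] at h2 h3
      refine ⟨?_, ?_⟩
      · show ‖f (fl i j e t (un z))‖ ^ 2 - ‖g (fl i j e t (un z))‖ ^ 2 = 0
        rw [h2, sub_self]
      · intro h4
        apply h3
        rw [Complex.inner, Complex.inner] at h4
        have h5 : (e * ((starRingEnd ℂ) (f (fl i j e t (un z))) * tf (fl i j e t (un z)) -
            (starRingEnd ℂ) (g (fl i j e t (un z))) * tg (fl i j e t (un z)))) =
            e * tf (fl i j e t (un z)) * (starRingEnd ℂ) (f (fl i j e t (un z))) -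
            e * tg (fl i j e t (un z)) * (starRingEnd ℂ) (g (fl i j e t (un z))) := by ring
        rw [h5, Complex.sub_re]
        linarith

theorem tang_null (i j : Fin n) (hij : i ≠ j) (f g tf tg : V n → ℂ)
    (hf : ContinuousOn f (closedBall (0 : V n) 1)) (hf' : DifferentiableOn ℂ f (ball (0 : V n) 1))
    (hg : ContinuousOn g (closedBall (0 : V n) 1)) (hg' : DifferentiableOn ℂ g (ball (0 : V n) 1))
    (hTf : Tg i j f tf) (hTg : Tg i j g tg) :
    (volume : Measure (V n)) {z | z ∈ (ball (0 : V n) 1) ∩ {0}ᶜ ∧ ‖f (un z)‖ = ‖g (un z)‖ ∧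
      g (un z) * tf (un z) - f (un z) * tg (un z) ≠ 0} = 0 := by
  have h1 := part_null i j hij f g tf tg hf hf' hg hg' hTf hTg 1 (by simp)
  have h2 := part_null i j hij f g tf tg hf hf' hg hg' hTf hTg Complex.I (by simp)
  refine measure_mono_null ?_ (measure_union_null h1 h2)
  rintro z ⟨hz, hE, hne⟩
  by_contra hcon
  apply hne
  have a1 : (1 * ((starRingEnd ℂ) (f (un z)) * tf (un z) - (starRingEnd ℂ) (g (un z)) * tg (un z))).re = 0 := by
    by_contra h3; exact hcon (Or.inl ⟨hz, hE, h3⟩)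
  have a2 : (Complex.I * ((starRingEnd ℂ) (f (un z)) * tf (un z) - (starRingEnd ℂ) (g (un z)) * tg (un z))).re = 0 := by
    by_contra h3; exact hcon (Or.inr ⟨hz, hE, h3⟩)
  have a3 : (starRingEnd ℂ) (f (un z)) * tf (un z) - (starRingEnd ℂ) (g (un z)) * tg (un z) = 0 := by
    apply Complex.ext
    · rw [one_mul] at a1; simpa using a1
    · rw [Complex.I_mul_re] at a2
      have := neg_eq_zero.mp a2
      simpa using this
  by_cases hf0 : f (un z) = 0
  · have hg0 : g (un z) = 0 := by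
      rw [hf0, norm_zero] at hE
      exact norm_eq_zero.mp hE.symm
    rw [hf0, hg0]; ring
  · have a4 : f (un z) * (starRingEnd ℂ) (f (un z)) = g (un z) * (starRingEnd ℂ) (g (un z)) := by
      rw [Complex.mul_conj, Complex.mul_conj, Complex.normSq_eq_norm_sq, Complex.normSq_eq_norm_sq, hE]
    have a5 : (f (un z) * (starRingEnd ℂ) (f (un z))) * (g (un z) * tf (un z) - f (un z) * tg (un z)) = 0 := by
      have : (f (un z) * (starRingEnd ℂ) (f (un z))) * (f (un z) * tg (un z)) =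
          (g (un z) * (starRingEnd ℂ) (g (un z))) * (f (un z) * tg (un z)) := by rw [a4]
      linear_combination (f (un z) * g (un z)) * a3 - this
    have a6 : f (un z) * (starRingEnd ℂ) (f (un z)) ≠ 0 :=
      mul_ne_zero hf0 ((map_ne_zero _).mpr hf0)
    exact (mul_eq_zero.mp a5).resolve_left a6

end Pool.Agent.H44.SP
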