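import Pool.Agent.H74.CB.Defs

/-!
# [H44 SP Defs] MP_845814_an, Hoelder pairs: the field `J z = conj (z i) e_j - conj (z j) e_i`

THEOREM. `n ≥ 2`, `a > 1/2`, `f, g ∈ A(B_n)` Hoelder of exponent `a` on the ball, `|f| = |g|` on a subset of the sphere of positive measure. Then `f = c g`.
-/

set_option autoImplicit false

namespace Pool.Agent.H44.SP

open MeasureTheory Metric Pool.Agent.H74.CB

variable {n : ℕ}

/-- the real linear field `J` -/
noncomputable def jj (i j : Fin n) (z : V n) : V n :=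
  EuclideanSpace.single j ((starRingEnd ℂ) (z i)) - EuclideanSpace.single i ((starRingEnd ℂ) (z j))

theorem jj_apply (i j k : Fin n) (z : V n) : jj i j z k =
    (if k = j then (starRingEnd ℂ) (z i) else 0) - (if k = i then (starRingEnd ℂ) (z j) else 0) := by
  simp [jj, Pi.single_apply]

theorem jj_smul (i j : Fin n) (c : ℂ) (z : V n) : jj i j (c • z) = (starRingEnd ℂ) c • jj i j z := by
  ext k
  simp only [jj_apply, PiLp.smul_apply, smul_eq_mul, map_mul]
  split_ifs <;> ring

theorem jj_add (i j : Fin n) (z w : V n) : jj i j (z + w) = jj i j z + jj i j w := by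
  ext k
  simp only [jj_apply, PiLp.add_apply, map_add]
  split_ifs <;> ring

theorem continuous_jj (i j : Fin n) : Continuous (jj i j : V n → V n) := by
  have h : ∀ k, Continuous fun z : V n => jj i j z k := by
    intro k
    simp only [jj_apply]
    split_ifs <;> fun_prop
  exact (PiLp.continuous_toLp 2 _).comp (continuous_pi h)

theorem norm_jj_sq (i j : Fin n) (hij : i ≠ j) (z : V n) : ‖jj i j z‖ ^ 2 = ‖z i‖ ^ 2 + ‖z j‖ ^ 2 := by
  rw [EuclideanSpace.norm_sq_eq, ← Finset.add_sum_erase _ _ (Finset.mem_univ i),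
    ← Finset.add_sum_erase _ _ (Finset.mem_erase.mpr ⟨hij.symm, Finset.mem_univ j⟩), Finset.sum_eq_zero]
  · simp [jj_apply, hij, hij.symm]
    ring
  · intro k hk
    simp only [Finset.mem_erase, Finset.mem_univ, and_true] at hk
    simp [jj_apply, hk.1, hk.2]

theorem norm_jj_le (i j : Fin n) (hij : i ≠ j) (z : V n) : ‖jj i j z‖ ≤ ‖z‖ := by
  refine le_of_sq_le_sq ?_ (norm_nonneg _)
  rw [norm_jj_sq i j hij, EuclideanSpace.norm_sq_eq, ← Finset.add_sum_erase _ _ (Finset.mem_univ i),
    ← Finset.add_sum_erase _ _ (Finset.mem_erase.mpr ⟨hij.symm, Finset.mem_univ j⟩), ← add_assoc]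
  exact le_add_of_nonneg_right (Finset.sum_nonneg fun _ _ => sq_nonneg _)

/-- `z` and `J z` are orthogonal -/
theorem norm_add_jj_sq (i j : Fin n) (hij : i ≠ j) (c s : ℂ) (z : V n) :
    ‖c • z + s • jj i j z‖ ^ 2 = ‖c‖ ^ 2 * ‖z‖ ^ 2 + ‖s‖ ^ 2 * ‖jj i j z‖ ^ 2 := by
  have h0 : inner ℂ z (jj i j z) = 0 := by
    rw [PiLp.inner_apply, ← Finset.add_sum_erase _ _ (Finset.mem_univ i),
      ← Finset.add_sum_erase _ _ (Finset.mem_erase.mpr ⟨hij.symm, Finset.mem_univ j⟩), Finset.sum_eq_zero]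
    · simp [jj_apply, hij, hij.symm]
      ring
    · intro k hk
      simp only [Finset.mem_erase, Finset.mem_univ, and_true] at hk
      simp [jj_apply, hk.1, hk.2]
  have h1 : inner ℂ (c • z) (s • jj i j z) = 0 := by
    rw [inner_smul_left, inner_smul_right, h0]; simp
  have h2 := norm_add_sq_eq_norm_sq_add_norm_sq_of_inner_eq_zero _ _ h1
  rw [norm_smul, norm_smul] at h2
  calc ‖c • z + s • jj i j z‖ ^ 2 = ‖c • z + s • jj i j z‖ * ‖c • z + s • jj i j z‖ := sq _
    _ = _ := by rw [h2]; ring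

/-- the complex tangential derivative of `f` extends continuously to the closed ball, with extension `tf` -/
def Tg (i j : Fin n) (f tf : V n → ℂ) : Prop :=
  ContinuousOn tf (closedBall (0 : V n) 1) ∧ ∀ z ∈ ball (0 : V n) 1, tf z = fderiv ℂ f z (jj i j z)

end Pool.Agent.H44.SP
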