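import Pool.Agent.H44.SP.Hd

/-!
# [H44 SP Lp] Hoelder functions of exponent `> 1/2` have continuous complex tangential derivatives (uses the STATEMENT of `cont_fderiv`)

Put `r k = 1 - (1/2)^(k+1)`, `δ k = 1 - r k`. For `z ∈ closedBall 0 1` let `T k z = fderiv ℂ f (r k • z) (jj i j z)` (no factor `r k` in front of `J z`).
* `T k` is continuous on the closed ball (`cont_fderiv`, `continuous_jj`; `r k • z ∈ ball 0 1`).
* `‖T (k+1) z - T k z‖ ≤ C' * (δ k) ^ (a - 1/2)`: let `w = jj i j z`, `‖w‖ ≤ 1`, and `φ τ = f (r (k+1) • z + τ • w) - f (r k • z + τ • w)`. For `|τ| ≤ ρ := √(δ (k+1)) / 2`: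
  `‖r z + τ w‖² = r² ‖z‖² + |τ|² ‖w‖² ≤ (1 - δ)² + ρ² < 1` (`norm_add_jj_sq`, `δ = δ (k+1)`, `(1 - δ)² + δ/4 = 1 - 7/4 δ + δ² < 1` as `δ ≤ 1/4`), both arguments lie in the ball, so
  `‖φ τ‖ ≤ C * ‖(r (k+1) - r k) • z‖ ^ a ≤ C * (δ (k+1)) ^ a` (`r (k+1) - r k = δ (k+1)`; `0 ≤ C` by the Hoelder hypothesis or replace `C` by `|C|`).
  `T (k+1) z - T k z = φ'(0)`, and Cauchy (`Complex.norm_deriv_le_of_forall_mem_sphere_norm_le`): `≤ C δ ^ a / ρ = 2 C δ ^ (a - 1/2)`.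
* The series is geometric (`a > 1/2`), so `T k` converges uniformly on the closed ball (`tendstoUniformlyOn` from a summable bound, e.g. `cauchySeq_of_le_geometric`-type or
  `tendstoUniformlyOn_tsum` for `T (k+1) - T k`); the limit `tf` is continuous on the closed ball, and for `z` in the open ball `T k z → fderiv ℂ f z (jj i j z)` by `cont_fderiv`.
-/

set_option autoImplicit false

namespace Pool.Agent.H44.SP

open MeasureTheory Metric Pool.Agent.H74.CB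

variable {n : ℕ}

/-- one dyadic step: `s = 1 - 2 δ`, `t = 1 - δ` -/
theorem lip_step (i j : Fin n) (hij : i ≠ j) (f : V n → ℂ)
    (hf' : DifferentiableOn ℂ f (ball (0 : V n) 1)) (a C : ℝ) (ha : 0 ≤ a)
    (hL : ∀ z ∈ ball (0 : V n) 1, ∀ w ∈ ball (0 : V n) 1, ‖f z - f w‖ ≤ C * ‖z - w‖ ^ a)
    (δ : ℝ) (hδ0 : 0 < δ) (hδ1 : δ ≤ 1 / 4) (z : V n) (hz : z ∈ closedBall (0 : V n) 1) :
    ‖fderiv ℂ f (((1 - δ : ℝ) : ℂ) • z) (jj i j z) - fderiv ℂ f (((1 - 2 * δ : ℝ) : ℂ) • z) (jj i j z)‖ ≤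
      |C| * δ ^ a / (Real.sqrt δ / 2) := by
  have hz1 : ‖z‖ ≤ 1 := by simpa using hz
  have hw1 : ‖jj i j z‖ ≤ 1 := (norm_jj_le i j hij z).trans hz1
  have hs0 : 0 < Real.sqrt δ := Real.sqrt_pos.mpr hδ0
  have hss : Real.sqrt δ ^ 2 = δ := Real.sq_sqrt hδ0.le
  -- points stay in the ball
  have hin : ∀ u : ℝ, 0 ≤ u → u ≤ 1 - δ → ∀ τ : ℂ, ‖τ‖ ≤ Real.sqrt δ / 2 →
      (u : ℂ) • z + τ • jj i j z ∈ ball (0 : V n) 1 := by
    intro u hu0 hu1 τ hτ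
    rw [mem_ball_zero_iff]
    have h1 := norm_add_jj_sq i j hij (u : ℂ) τ z
    have h2 : ‖(u : ℂ)‖ = u := by rw [Complex.norm_real, Real.norm_eq_abs, abs_of_nonneg hu0]
    rw [h2] at h1
    have h3 : ‖z‖ ^ 2 ≤ 1 := by nlinarith [norm_nonneg z]
    have h4 : ‖jj i j z‖ ^ 2 ≤ 1 := by nlinarith [norm_nonneg (jj i j z)]
    have h5 : ‖τ‖ ^ 2 ≤ δ / 4 := by
      have : ‖τ‖ ^ 2 ≤ (Real.sqrt δ / 2) ^ 2 := pow_le_pow_left₀ (norm_nonneg _) hτ 2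
      rw [div_pow, hss] at this
      linarith
    have h6 : u ^ 2 ≤ (1 - δ) ^ 2 := pow_le_pow_left₀ hu0 hu1 2
    have h7 : u ^ 2 * ‖z‖ ^ 2 ≤ u ^ 2 := mul_le_of_le_one_right (sq_nonneg _) h3
    have h8 : ‖τ‖ ^ 2 * ‖jj i j z‖ ^ 2 ≤ ‖τ‖ ^ 2 := mul_le_of_le_one_right (sq_nonneg _) h4
    have h9 : ‖(u : ℂ) • z + τ • jj i j z‖ ^ 2 < 1 := by
      rw [h1]
      nlinarith
    nlinarith [norm_nonneg ((u : ℂ) • z + τ • jj i j z)]
  have hda : ∀ u : ℝ, 0 ≤ u → u ≤ 1 - δ → ∀ τ : ℂ, ‖τ‖ ≤ Real.sqrt δ / 2 →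
      DifferentiableAt ℂ (fun τ : ℂ => f ((u : ℂ) • z + τ • jj i j z)) τ := by
    intro u hu0 hu1 τ hτ
    have h1 : DifferentiableAt ℂ f ((u : ℂ) • z + τ • jj i j z) :=
      hf'.differentiableAt (isOpen_ball.mem_nhds (hin u hu0 hu1 τ hτ))
    exact DifferentiableAt.comp (f := fun τ : ℂ => (u : ℂ) • z + τ • jj i j z) τ h1 (by fun_prop)
  have hder : ∀ u : ℝ, 0 ≤ u → u ≤ 1 - δ →
      HasDerivAt (fun τ : ℂ => f ((u : ℂ) • z + τ • jj i j z)) (fderiv ℂ f ((u : ℂ) • z) (jj i j z)) 0 := by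
    intro u hu0 hu1
    have h0 := hin u hu0 hu1 0 (by rw [norm_zero]; positivity)
    rw [zero_smul, add_zero] at h0
    have h1 : HasFDerivAt f (fderiv ℂ f ((u : ℂ) • z)) ((u : ℂ) • z) :=
      (hf'.differentiableAt (isOpen_ball.mem_nhds h0)).hasFDerivAt
    have h2 : HasDerivAt (fun τ : ℂ => (u : ℂ) • z + τ • jj i j z) (jj i j z) 0 := by
      have h3 := ((hasDerivAt_id (0 : ℂ)).smul_const (jj i j z)).const_add ((u : ℂ) • z)
      simpa using h3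
    have h4 : HasFDerivAt f (fderiv ℂ f ((u : ℂ) • z)) ((fun τ : ℂ => (u : ℂ) • z + τ • jj i j z) 0) := by
      simpa using h1
    exact h4.comp_hasDerivAt (0 : ℂ) h2
  have hu1 : (0 : ℝ) ≤ 1 - δ := by linarith
  have hu2 : (0 : ℝ) ≤ 1 - 2 * δ := by linarith
  have hu3 : (1 : ℝ) - 2 * δ ≤ 1 - δ := by linarith
  have hd := (hder (1 - δ) hu1 le_rfl).sub (hder (1 - 2 * δ) hu2 hu3)
  have hR : 0 < Real.sqrt δ / 2 := by positivity
  have hcl : DiffContOnCl ℂ ((fun τ : ℂ => f (((1 - δ : ℝ) : ℂ) • z + τ • jj i j z)) -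
      fun τ : ℂ => f (((1 - 2 * δ : ℝ) : ℂ) • z + τ • jj i j z)) (ball (0 : ℂ) (Real.sqrt δ / 2)) := by
    refine DifferentiableOn.diffContOnCl ?_
    intro τ hτ
    have hτ1 : ‖τ‖ ≤ Real.sqrt δ / 2 := by
      have := closure_ball_subset_closedBall hτ
      simpa using this
    exact ((hda _ hu1 le_rfl τ hτ1).sub (hda _ hu2 hu3 τ hτ1)).differentiableWithinAt
  have hC : ∀ τ ∈ sphere (0 : ℂ) (Real.sqrt δ / 2), ‖((fun τ : ℂ => f (((1 - δ : ℝ) : ℂ) • z + τ • jj i j z)) -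
      fun τ : ℂ => f (((1 - 2 * δ : ℝ) : ℂ) • z + τ • jj i j z)) τ‖ ≤ |C| * δ ^ a := by
    intro τ hτ
    have hτ1 : ‖τ‖ ≤ Real.sqrt δ / 2 := by
      have : ‖τ‖ = Real.sqrt δ / 2 := by simpa using hτ
      exact this.le
    rw [Pi.sub_apply]
    have h1 := hL _ (hin _ hu1 le_rfl τ hτ1) _ (hin _ hu2 hu3 τ hτ1)
    have h2 : (((1 - δ : ℝ) : ℂ) • z + τ • jj i j z) - (((1 - 2 * δ : ℝ) : ℂ) • z + τ • jj i j z) = ((δ : ℝ) : ℂ) • z := by
      rw [add_sub_add_right_eq_sub, ← sub_smul]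
      congr 1
      push_cast
      ring
    rw [h2] at h1
    have h3 : ‖((δ : ℝ) : ℂ) • z‖ ≤ δ := by
      rw [norm_smul, Complex.norm_real, Real.norm_eq_abs, abs_of_pos hδ0]
      exact mul_le_of_le_one_right hδ0.le hz1
    have h4 : ‖((δ : ℝ) : ℂ) • z‖ ^ a ≤ δ ^ a := Real.rpow_le_rpow (norm_nonneg _) h3 ha
    calc _ ≤ C * ‖((δ : ℝ) : ℂ) • z‖ ^ a := h1
      _ ≤ |C| * ‖((δ : ℝ) : ℂ) • z‖ ^ a :=
          mul_le_mul_of_nonneg_right (le_abs_self C) (Real.rpow_nonneg (norm_nonneg _) _)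
      _ ≤ |C| * δ ^ a := mul_le_mul_of_nonneg_left h4 (abs_nonneg C)
  have hfin := Complex.norm_deriv_le_of_forall_mem_sphere_norm_le hR hcl hC
  rw [hd.deriv] at hfin
  exact hfin

theorem lip_ext (i j : Fin n) (hij : i ≠ j) (f : V n → ℂ)
    (hf' : DifferentiableOn ℂ f (ball (0 : V n) 1)) (a C : ℝ) (ha : 1 / 2 < a)
    (hL : ∀ z ∈ ball (0 : V n) 1, ∀ w ∈ ball (0 : V n) 1, ‖f z - f w‖ ≤ C * ‖z - w‖ ^ a) :
    ∃ tf : V n → ℂ, Tg i j f tf := by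
  obtain ⟨q, hqdef⟩ : ∃ q : ℝ, q = (1 / 2 : ℝ) ^ (a - 1 / 2) := ⟨_, rfl⟩
  have hq0 : 0 < q := by rw [hqdef]; positivity
  have hq1 : q < 1 := by rw [hqdef]; exact Real.rpow_lt_one (by norm_num) (by norm_num) (by linarith)
  -- the sequence
  obtain ⟨T, hT⟩ : ∃ T : ℕ → V n → ℂ, ∀ k z, T k z =
      fderiv ℂ f (((1 - (1 / 2 : ℝ) ^ (k + 1) : ℝ) : ℂ) • z) (jj i j z) := ⟨_, fun _ _ => rfl⟩
  have hrk : ∀ k : ℕ, 0 < (1 / 2 : ℝ) ^ (k + 1) ∧ (1 / 2 : ℝ) ^ (k + 1) ≤ 1 / 2 := by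
    intro k
    refine ⟨by positivity, ?_⟩
    have h1 : (1 / 2 : ℝ) ^ k ≤ 1 := pow_le_one₀ (by norm_num) (by norm_num)
    rw [pow_succ]
    linarith
  have hstep : ∀ k : ℕ, ∀ z ∈ closedBall (0 : V n) 1, dist (T k z) (T (k + 1) z) ≤ (2 * |C| * q ^ 2) * q ^ k := by
    intro k z hz
    have hδ0 : 0 < (1 / 2 : ℝ) ^ (k + 2) := by positivity
    have hδ1 : (1 / 2 : ℝ) ^ (k + 2) ≤ 1 / 4 := by
      have h1 := (hrk k).2
      rw [show k + 2 = (k + 1) + 1 from rfl, pow_succ]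
      linarith
    have h1 := lip_step i j hij f hf' a C (by linarith) hL _ hδ0 hδ1 z hz
    have h2 : (1 : ℝ) - 2 * (1 / 2 : ℝ) ^ (k + 2) = 1 - (1 / 2 : ℝ) ^ (k + 1) := by
      rw [show k + 2 = (k + 1) + 1 from rfl, pow_succ (1 / 2 : ℝ) (k + 1)]
      ring
    rw [h2] at h1
    rw [dist_comm, dist_eq_norm, hT, hT]
    refine h1.trans (le_of_eq ?_)
    have h3 : Real.sqrt ((1 / 2 : ℝ) ^ (k + 2)) = ((1 / 2 : ℝ) ^ (k + 2)) ^ (1 / 2 : ℝ) := Real.sqrt_eq_rpow _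
    have h4 : ((1 / 2 : ℝ) ^ (k + 2)) ^ a / ((1 / 2 : ℝ) ^ (k + 2)) ^ (1 / 2 : ℝ) = q ^ (k + 2) := by
      rw [← Real.rpow_sub hδ0, hqdef, ← Real.rpow_natCast, ← Real.rpow_mul (by norm_num), ← Real.rpow_natCast,
        ← Real.rpow_mul (by norm_num)]
      congr 1
      ring
    rw [h3]
    have h5 : 0 < ((1 / 2 : ℝ) ^ (k + 2)) ^ (1 / 2 : ℝ) := by positivity
    calc |C| * ((1 / 2 : ℝ) ^ (k + 2)) ^ a / (((1 / 2 : ℝ) ^ (k + 2)) ^ (1 / 2 : ℝ) / 2)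
        = 2 * |C| * (((1 / 2 : ℝ) ^ (k + 2)) ^ a / ((1 / 2 : ℝ) ^ (k + 2)) ^ (1 / 2 : ℝ)) := by field_simp
      _ = 2 * |C| * q ^ (k + 2) := by rw [h4]
      _ = (2 * |C| * q ^ 2) * q ^ k := by rw [pow_add]; ring
  have hlim : ∀ z ∈ closedBall (0 : V n) 1, ∃ l : ℂ, Filter.Tendsto (fun k => T k z) Filter.atTop (nhds l) := by
    intro z hz
    exact cauchySeq_tendsto_of_complete (cauchySeq_of_le_geometric q _ hq1 fun k => hstep k z hz)
  choose! tf htf using hlim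
  have hunif : TendstoUniformlyOn T tf Filter.atTop (closedBall (0 : V n) 1) := by
    rw [Metric.tendstoUniformlyOn_iff]
    intro ε hε
    have h1 : Filter.Tendsto (fun k : ℕ => (2 * |C| * q ^ 2) * q ^ k / (1 - q)) Filter.atTop (nhds 0) := by
      have h2 := ((tendsto_pow_atTop_nhds_zero_of_lt_one hq0.le hq1).const_mul (2 * |C| * q ^ 2)).div_const (1 - q)
      simpa using h2
    filter_upwards [h1.eventually (gt_mem_nhds hε)] with k hk z hz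
    rw [dist_comm]
    exact lt_of_le_of_lt (dist_le_of_le_geometric_of_tendsto q _ hq1 (fun k => hstep k z hz) (htf z hz) k) hk
  have hball : ∀ (u : ℝ), 0 ≤ u → u < 1 → ∀ z ∈ closedBall (0 : V n) 1, (u : ℂ) • z ∈ ball (0 : V n) 1 := by
    intro u hu0 hu1 z hz
    have hz1 : ‖z‖ ≤ 1 := by simpa using hz
    rw [mem_ball_zero_iff, norm_smul, Complex.norm_real, Real.norm_eq_abs, abs_of_nonneg hu0]
    exact lt_of_le_of_lt (mul_le_of_le_one_right hu0 hz1) hu1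
  refine ⟨tf, ?_, ?_⟩
  · refine hunif.continuousOn (Filter.Eventually.frequently (Filter.Eventually.of_forall fun k => ?_))
    have h1 : ContinuousOn (fun z : V n => fderiv ℂ f (((1 - (1 / 2 : ℝ) ^ (k + 1) : ℝ) : ℂ) • z))
        (closedBall (0 : V n) 1) := by
      refine (cont_fderiv f hf').comp (by fun_prop) ?_
      intro z hz
      exact hball _ (by linarith [(hrk k).2]) (by linarith [(hrk k).1]) z hz
    have h2 : T k = fun z => fderiv ℂ f (((1 - (1 / 2 : ℝ) ^ (k + 1) : ℝ) : ℂ) • z) (jj i j z) := by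
      funext z; exact hT k z
    rw [h2]
    exact h1.clm_apply (continuous_jj i j).continuousOn
  · intro z hz
    have hzc : z ∈ closedBall (0 : V n) 1 := ball_subset_closedBall hz
    refine tendsto_nhds_unique (htf z hzc) ?_
    have h1 : Filter.Tendsto (fun k : ℕ => ((1 - (1 / 2 : ℝ) ^ (k + 1) : ℝ) : ℂ) • z) Filter.atTop (nhds z) := by
      have h2 : Filter.Tendsto (fun k : ℕ => (1 - (1 / 2 : ℝ) ^ (k + 1) : ℝ)) Filter.atTop (nhds 1) := by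
        have h3 : Filter.Tendsto (fun k : ℕ => (1 / 2 : ℝ) ^ (k + 1)) Filter.atTop (nhds 0) :=
          (tendsto_pow_atTop_nhds_zero_of_lt_one (by norm_num) (by norm_num)).comp (Filter.tendsto_add_atTop_nat 1)
        simpa using h3.const_sub 1
      have h4 : Filter.Tendsto (fun k : ℕ => ((1 - (1 / 2 : ℝ) ^ (k + 1) : ℝ) : ℂ)) Filter.atTop (nhds ((1 : ℝ) : ℂ)) :=
        (Complex.continuous_ofReal.tendsto 1).comp h2
      have h5 := h4.smul_const z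
      simpa using h5
    have h6 : ContinuousAt (fun z => fderiv ℂ f z) z := (cont_fderiv f hf').continuousAt (isOpen_ball.mem_nhds hz)
    have h7 : Filter.Tendsto (fun k : ℕ => fderiv ℂ f (((1 - (1 / 2 : ℝ) ^ (k + 1) : ℝ) : ℂ) • z)) Filter.atTop
        (nhds (fderiv ℂ f z)) := h6.tendsto.comp h1
    have h8 : Filter.Tendsto (fun k : ℕ => fderiv ℂ f (((1 - (1 / 2 : ℝ) ^ (k + 1) : ℝ) : ℂ) • z) (jj i j z)) Filter.atTop
        (nhds (fderiv ℂ f z (jj i j z))) :=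
      ((ContinuousLinearMap.apply ℂ ℂ (jj i j z)).continuous.tendsto (fderiv ℂ f z)).comp h7
    have h9 : (fun k : ℕ => T k z) = fun k => fderiv ℂ f (((1 - (1 / 2 : ℝ) ^ (k + 1) : ℝ) : ℂ) • z) (jj i j z) := by
      funext k; exact hT k z
    rw [h9]
    exact h8

end Pool.Agent.H44.SP
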