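import Pool.Agent.H44.SP.Sl
import Pool.Agent.H44.SP.Lp

/-!
# [H44 SP Fin] Conclusion
-/

set_option autoImplicit false

namespace Pool.Agent.H44.SP

open MeasureTheory Metric Pool.Agent.H74.CB Filter Topology

variable {n : ℕ}

theorem conj_not_diff (c : ℂ) (h : DifferentiableAt ℂ (fun τ : ℂ => (starRingEnd ℂ) (c + τ)) 0) : False := by
  obtain ⟨d, hd⟩ : ∃ d, HasDerivAt (fun τ : ℂ => (starRingEnd ℂ) (c + τ)) d 0 := ⟨_, h.hasDerivAt⟩
  have h1 : HasDerivAt (fun s : ℝ => (starRingEnd ℂ) (c + (s : ℂ))) d 0 := by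
    exact HasDerivAt.comp_ofReal (e := fun τ : ℂ => (starRingEnd ℂ) (c + τ)) (z := 0) (e' := d) (by simpa using hd)
  have h2 : HasDerivAt (fun s : ℝ => (starRingEnd ℂ) (c + (s : ℂ))) 1 0 := by
    have e : (fun s : ℝ => (starRingEnd ℂ) (c + (s : ℂ))) = fun s : ℝ => (starRingEnd ℂ) c + (s : ℂ) := by
      funext s; rw [map_add, Complex.conj_ofReal]
    rw [e]
    exact (Complex.ofRealCLM.hasDerivAt (x := (0 : ℝ))).const_add _
  have h3 : HasDerivAt (fun s : ℝ => (starRingEnd ℂ) (c + (s : ℂ) * Complex.I)) (d * Complex.I) 0 := by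
    have hI : HasDerivAt (fun s : ℝ => (s : ℂ) * Complex.I) Complex.I 0 := by
      have := (Complex.ofRealCLM.hasDerivAt (x := (0 : ℝ))).mul_const Complex.I
      simpa using this
    have hd' : HasDerivAt (fun τ : ℂ => (starRingEnd ℂ) (c + τ)) d (((0 : ℝ) : ℂ) * Complex.I) := by simpa using hd
    exact HasDerivAt.comp (h₂ := fun τ : ℂ => (starRingEnd ℂ) (c + τ)) (0 : ℝ) hd' hI
  have h4 : HasDerivAt (fun s : ℝ => (starRingEnd ℂ) (c + (s : ℂ) * Complex.I)) (-Complex.I) 0 := by
    have e : (fun s : ℝ => (starRingEnd ℂ) (c + (s : ℂ) * Complex.I)) = fun s : ℝ => (starRingEnd ℂ) c + (s : ℂ) * (-Complex.I) := by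
      funext s; rw [map_add, map_mul, Complex.conj_ofReal, Complex.conj_I]
    rw [e]
    have := ((Complex.ofRealCLM.hasDerivAt (x := (0 : ℝ))).mul_const (-Complex.I)).const_add ((starRingEnd ℂ) c)
    simpa using this
  have e1 := h1.unique h2
  have e2 := h3.unique h4
  rw [e1, one_mul] at e2
  have := congrArg Complex.im e2
  simp at this
  norm_num at this

theorem conj_trick (p q : ℂ → ℂ) (hp : DifferentiableAt ℂ p 0) (hq : DifferentiableAt ℂ q 0) (α β : ℂ)
    (h : ∀ᶠ τ in 𝓝 (0 : ℂ), (starRingEnd ℂ) (α + τ) * p τ = β * q τ) : p 0 = 0 := by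
  by_contra h0
  apply conj_not_diff α
  have h1 : DifferentiableAt ℂ (fun τ => β * q τ / p τ) 0 := (hq.const_mul β).div hp h0
  refine h1.congr_of_eventuallyEq ?_
  have h2 : ∀ᶠ τ in 𝓝 (0 : ℂ), p τ ≠ 0 := hp.continuousAt.eventually_ne h0
  filter_upwards [h, h2] with τ h3 h4
  rw [eq_div_iff h4]
  exact h3

theorem closure_eq (f g : V n → ℂ)
    (hf : ContinuousOn f (closedBall (0 : V n) 1)) (hg : ContinuousOn g (closedBall (0 : V n) 1))
    (h : ∀ z ∈ ball (0 : V n) 1, f z = g z) : ∀ z ∈ closedBall (0 : V n) 1, f z = g z := by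
  have h1 : Set.EqOn f g (ball (0 : V n) 1) := h
  have h2 := h1.of_subset_closure hf hg ball_subset_closedBall (by rw [closure_ball _ one_ne_zero])
  exact h2

theorem wr_zero (hn : 2 ≤ n) (f g : V n → ℂ)
    (hf : ContinuousOn f (closedBall (0 : V n) 1)) (hf' : DifferentiableOn ℂ f (ball (0 : V n) 1))
    (hg : ContinuousOn g (closedBall (0 : V n) 1)) (hg' : DifferentiableOn ℂ g (ball (0 : V n) 1))
    (hTf : ∀ i j, i ≠ j → ∃ tf, Tg i j f tf) (hTg : ∀ i j, i ≠ j → ∃ tg, Tg i j g tg)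
    (hpos : (volume : Measure (V n)) {z | z ∈ (ball (0 : V n) 1) ∩ {0}ᶜ ∧ ‖f (un z)‖ = ‖g (un z)‖} ≠ 0)
    (j : Fin n) (z : V n) (hz : z ∈ ball (0 : V n) 1) :
    g z * fderiv ℂ f z (EuclideanSpace.single j 1) - f z * fderiv ℂ g z (EuclideanSpace.single j 1) = 0 := by
  obtain ⟨i, hij⟩ : ∃ i : Fin n, i ≠ j := by
    have : Nontrivial (Fin n) := Fin.nontrivial_iff_two_le.mpr hn
    exact exists_ne j
  obtain ⟨tf, hTf⟩ := hTf i j hij
  obtain ⟨tg, hTg⟩ := hTg i j hij
  have hΨ := psi_zero (by omega) i j hij f g tf tg hf hf' hg hg' hTf hTg hpos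
  set ei : V n := EuclideanSpace.single i 1 with hei
  set ej : V n := EuclideanSpace.single j 1 with hej
  have h0 : (0 : ℂ) ∈ {τ : ℂ | z + τ • ei ∈ ball (0 : V n) 1} := by
    show z + (0 : ℂ) • ei ∈ ball (0 : V n) 1
    rw [zero_smul, add_zero]; exact hz
  have hU := (isOpen_line z ei).mem_nhds h0
  have d1 := (hol_fderiv f hf' z ei ej).differentiableAt hU
  have d2 := (hol_fderiv g hg' z ei ej).differentiableAt hU
  have d3 := (hol_fderiv f hf' z ei ei).differentiableAt hU
  have d4 := (hol_fderiv g hg' z ei ei).differentiableAt hU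
  have d5 := (diff_line f hf' z ei).differentiableAt hU
  have d6 := (diff_line g hg' z ei).differentiableAt hU
  have hp : DifferentiableAt ℂ (fun τ : ℂ => g (z + τ • ei) * fderiv ℂ f (z + τ • ei) ej -
      f (z + τ • ei) * fderiv ℂ g (z + τ • ei) ej) 0 := (d6.mul d1).sub (d5.mul d2)
  have hq : DifferentiableAt ℂ (fun τ : ℂ => g (z + τ • ei) * fderiv ℂ f (z + τ • ei) ei -
      f (z + τ • ei) * fderiv ℂ g (z + τ • ei) ei) 0 := (d6.mul d3).sub (d5.mul d4)
  have key := conj_trick _ _ hp hq (z i) ((starRingEnd ℂ) (z j)) (by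
    filter_upwards [hU] with τ hτ
    have hτ' : z + τ • ei ∈ ball (0 : V n) 1 := hτ
    have h1 := hΨ _ hτ'
    rw [hTf.2 _ hτ', hTg.2 _ hτ'] at h1
    have hjj : jj i j (z + τ • ei) = (starRingEnd ℂ) (z i + τ) • ej - (starRingEnd ℂ) (z j) • ei := by
      have e1 : (z + τ • ei) i = z i + τ := by simp [hei]
      have e2 : (z + τ • ei) j = z j := by simp [hei, hij.symm]
      rw [jj, e1, e2, hei, hej]
      ext k
      simp [Pi.single_apply]
    rw [hjj, map_sub, map_smul, map_smul, map_sub, map_smul, map_smul] at h1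
    simp only [smul_eq_mul] at h1
    linear_combination h1)
  simpa using key

theorem main (hn : 2 ≤ n) (f g : V n → ℂ)
    (hf : ContinuousOn f (closedBall (0 : V n) 1)) (hf' : DifferentiableOn ℂ f (ball (0 : V n) 1))
    (hg : ContinuousOn g (closedBall (0 : V n) 1)) (hg' : DifferentiableOn ℂ g (ball (0 : V n) 1))
    (hTf : ∀ i j, i ≠ j → ∃ tf, Tg i j f tf) (hTg : ∀ i j, i ≠ j → ∃ tg, Tg i j g tg)
    (hE : (volume : Measure (V n)).toSphere {ζ : sphere (0 : V n) 1 | ‖f ζ‖ = ‖g ζ‖} ≠ 0) :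
    ∃ c : ℂ, ∀ z ∈ closedBall (0 : V n) 1, f z = c * g z := by
  have hpos : (volume : Measure (V n)) {z | z ∈ (ball (0 : V n) 1) ∩ {0}ᶜ ∧ ‖f (un z)‖ = ‖g (un z)‖} ≠ 0 := by
    have hcl : ∀ ζ : sphere (0 : V n) 1, (ζ : V n) ∈ closedBall (0 : V n) 1 := fun ζ =>
      sphere_subset_closedBall ζ.2
    have c1 : Continuous fun ζ : sphere (0 : V n) 1 => ‖f ζ‖ :=
      (hf.comp_continuous continuous_subtype_val hcl).norm
    have c2 : Continuous fun ζ : sphere (0 : V n) 1 => ‖g ζ‖ :=
      (hg.comp_continuous continuous_subtype_val hcl).norm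
    obtain ⟨_, hM⟩ := cone_union {ζ : sphere (0 : V n) 1 | ‖f ζ‖ = ‖g ζ‖}
      (isClosed_eq c1 c2).measurableSet hE
      (fun _ => {z | z ∈ (ball (0 : V n) 1) ∩ {0}ᶜ ∧ ‖f (un z)‖ = ‖g (un z)‖}) (by
        intro ζ hζ t ht0 ht1
        refine ⟨0, ?_⟩
        have hζ1 : ‖(ζ : V n)‖ = 1 := mem_sphere_zero_iff_norm.mp ζ.2
        have hnt : ‖t • (ζ : V n)‖ = t := by
          rw [norm_smul, hζ1, mul_one, Real.norm_eq_abs, abs_of_pos ht0]
        have hun : un (t • (ζ : V n)) = ζ := by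
          rw [un, hnt, smul_smul, inv_mul_cancel₀ ht0.ne', one_smul]
        refine ⟨⟨?_, ?_⟩, ?_⟩
        · rw [mem_ball_zero_iff, hnt]; exact ht1
        · intro h
          have h' : t • (ζ : V n) = 0 := h
          rw [h', norm_zero] at hnt
          exact ht0.ne hnt
        · rw [hun]; exact hζ)
    exact hM
  have hW := wr_zero hn f g hf hf' hg hg' hTf hTg hpos
  by_cases hg0 : ∀ z ∈ ball (0 : V n) 1, g z = 0
  · have hg1 := closure_eq g (fun _ => 0) hg continuousOn_const hg0
    have hf0 := van_zero (by omega) f hf hf' (by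
      intro h
      apply hpos
      refine measure_mono_null ?_ h
      rintro z ⟨hz, hE⟩
      refine ⟨hz, ?_⟩
      have : un z ∈ closedBall (0 : V n) 1 := by
        rw [mem_closedBall_zero_iff, norm_un z hz.2]
      rw [hg1 _ this, norm_zero] at hE
      exact norm_eq_zero.mp hE)
    refine ⟨0, fun z hz => ?_⟩
    rw [zero_mul]
    exact closure_eq f (fun _ => 0) hf continuousOn_const hf0 z hz
  · push Not at hg0
    obtain ⟨z0, hz0, hgz0⟩ := hg0
    have hfd : ∀ z ∈ ball (0 : V n) 1, g z • fderiv ℂ f z - f z • fderiv ℂ g z = 0 := by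
      intro z hz
      apply ContinuousLinearMap.coe_injective
      refine (EuclideanSpace.basisFun (Fin n) ℂ).toBasis.ext fun k => ?_
      have := hW k z hz
      simpa using this
    -- a ball around z0 where g is not zero
    have hopen : IsOpen (ball (0 : V n) 1 ∩ g ⁻¹' {0}ᶜ) :=
      (hg.mono ball_subset_closedBall).isOpen_inter_preimage isOpen_ball isOpen_compl_singleton
    obtain ⟨ε, hε, hsub⟩ := Metric.isOpen_iff.mp hopen z0 ⟨hz0, hgz0⟩
    have hder : ∀ w ∈ ball z0 ε, HasFDerivAt (fun z => f z * (g z)⁻¹) (0 : V n →L[ℂ] ℂ) w := by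
      intro w hw
      have hw' := hsub hw
      have hne : g w ≠ 0 := hw'.2
      have a1 := (hf'.differentiableAt (isOpen_ball.mem_nhds hw'.1)).hasFDerivAt
      have a2 := (hg'.differentiableAt (isOpen_ball.mem_nhds hw'.1)).hasFDerivAt
      have a3 := a1.mul ((hasDerivAt_inv hne).comp_hasFDerivAt w a2)
      refine a3.congr_fderiv ?_
      ext v
      have a4 := congrArg (fun L : V n →L[ℂ] ℂ => L v) (hfd w hw'.1)
      simp only [ContinuousLinearMap.sub_apply, ContinuousLinearMap.smul_apply, smul_eq_mul,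
        ContinuousLinearMap.zero_apply] at a4
      simp only [ContinuousLinearMap.add_apply, ContinuousLinearMap.smul_apply, smul_eq_mul,
        ContinuousLinearMap.zero_apply, Function.comp_apply]
      field_simp
      linear_combination a4
    have hconst : ∀ z ∈ ball z0 ε, f z / g z = f z0 / g z0 := by
      intro z hz
      rw [div_eq_mul_inv, div_eq_mul_inv]
      exact isOpen_ball.is_const_of_fderiv_eq_zero (𝕜 := ℂ) (f := fun z => f z * (g z)⁻¹)
        (convex_ball z0 ε).isPreconnected (fun w hw => (hder w hw).differentiableAt.differentiableWithinAt)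
        (fun w hw => (hder w hw).fderiv) hz (mem_ball_self hε)
    refine ⟨f z0 / g z0, ?_⟩
    refine closure_eq f (fun z => f z0 / g z0 * g z) hf (continuousOn_const.mul hg) ?_
    have hall := all_zero (by omega) (fun z => f z - f z0 / g z0 * g z)
      ((hf.sub (continuousOn_const.mul hg)).mono ball_subset_closedBall)
      (fun a v t ht => (ana_f f hf' a v t ht).sub (analyticAt_const.mul (ana_f g hg' a v t ht))) (by
        intro h
        have h1 : (volume : Measure (V n)) (ball z0 ε) = 0 := by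
          refine measure_mono_null ?_ h
          intro z hz
          refine ⟨(hsub hz).1, ?_⟩
          show f z - f z0 / g z0 * g z = 0
          rw [← hconst z hz, div_mul_cancel₀ _ (hsub hz).2, sub_self]
        exact (measure_ball_pos volume z0 hε).ne' h1)
    intro z hz
    exact sub_eq_zero.mp (hall z hz)

end Pool.Agent.H44.SP
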