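import Pool.Agent.H44.SP.Defs

/-!
# [H44 SP Fl] Flows and Fubini
-/

set_option autoImplicit false

namespace Pool.Agent.H44.SP

open MeasureTheory Metric Pool.Agent.H74.CB

variable {n : ℕ}

/-- Fubini for a continuous family of volume preserving maps -/
theorem flow_null (Φ : ℝ → V n → V n) (hc : Continuous fun p : ℝ × V n => Φ p.1 p.2)
    (hmp : ∀ t, MeasurePreserving (Φ t) (volume : Measure (V n)) volume) (T : ℝ) (hT : 0 < T)
    (N : Set (V n)) (hN : MeasurableSet N)
    (h : ∀ᵐ z ∂(volume : Measure (V n)), volume {t : ℝ | t ∈ Set.Ioo 0 T ∧ Φ t z ∈ N} = 0) :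
    (volume : Measure (V n)) N = 0 := by
  set Q : Set (V n × ℝ) := {p | p.2 ∈ Set.Ioo 0 T ∧ Φ p.2 p.1 ∈ N} with hQdef
  have hQ : MeasurableSet Q := by
    have h1 : MeasurableSet {p : V n × ℝ | p.2 ∈ Set.Ioo 0 T} := measurable_snd measurableSet_Ioo
    have h2 : MeasurableSet {p : V n × ℝ | Φ p.2 p.1 ∈ N} := by
      have : Measurable fun p : V n × ℝ => Φ p.2 p.1 := (hc.comp continuous_swap).measurable
      exact this hN
    exact h1.inter h2
  have h1 : ((volume : Measure (V n)).prod (volume : Measure ℝ)) Q = 0 := by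
    rw [Measure.measure_prod_null hQ]
    filter_upwards [h] with z hz
    exact hz
  have h2 : ((volume : Measure ℝ).prod (volume : Measure (V n))) (Prod.swap ⁻¹' Q) = 0 := by
    rw [← h1]
    exact (Measure.measurePreserving_swap (μ := (volume : Measure ℝ)) (ν := (volume : Measure (V n)))).measure_preimage
      hQ.nullMeasurableSet
  rw [Measure.measure_prod_null (measurable_swap hQ)] at h2
  by_contra hpos
  have h3 : volume (Set.Ioo 0 T) = 0 := by
    rw [Filter.EventuallyEq, ae_iff] at h2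
    refine measure_mono_null ?_ h2
    intro t ht h4
    apply hpos
    rw [← (hmp t).measure_preimage hN.nullMeasurableSet]
    refine measure_mono_null ?_ h4
    intro z hz
    exact ⟨ht, hz⟩
  rw [Real.volume_Ioo, sub_zero, ENNReal.ofReal_eq_zero] at h3
  exact absurd h3 (not_le.mpr hT)

theorem mp_of_isom (Φ : V n → V n) (ha : ∀ x y, Φ (x + y) = Φ x + Φ y)
    (hs : ∀ (r : ℝ) (x : V n), Φ (r • x) = r • Φ x) (hn : ∀ x, ‖Φ x‖ = ‖x‖) :
    MeasurePreserving Φ (volume : Measure (V n)) volume := by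
  let L : V n →ₗᵢ[ℝ] V n := ⟨⟨⟨Φ, ha⟩, hs⟩, hn⟩
  have h := (L.toLinearIsometryEquiv rfl).measurePreserving
  exact h

theorem level_null (δ δ' : ℝ → ℝ) (h : ∀ t, HasDerivAt δ (δ' t) t) :
    volume {t : ℝ | δ t = 0 ∧ δ' t ≠ 0} = 0 := by
  apply measure_null_of_locally_null
  rintro t ⟨ht0, ht1⟩
  refine ⟨{t}, ?_, by simp⟩
  have h1 := (h t).eventually_ne ht1 (c := 0)
  rw [eventually_nhdsWithin_iff] at h1
  rw [mem_nhdsWithin_iff_eventually]
  filter_upwards [h1] with z hz hzZ
  by_contra hzt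
  exact hz hzt hzZ.1

/-- rotations -/
noncomputable def ro (t : ℝ) (z : V n) : V n := Complex.exp ((t : ℂ) * Complex.I) • z

theorem ro_mp (t : ℝ) : MeasurePreserving (ro t : V n → V n) (volume : Measure (V n)) volume := by
  refine mp_of_isom _ (fun x y => by simp [ro]) (fun r x => ?_) (fun x => ?_)
  · simp only [ro]
    rw [smul_comm]
  · simp only [ro]
    rw [norm_smul, Complex.norm_exp_ofReal_mul_I, one_mul]

theorem ro_cont : Continuous fun p : ℝ × V n => ro p.1 p.2 := by
  unfold ro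
  fun_prop

/-- the flow of `e J` -/
noncomputable def fl (i j : Fin n) (e : ℂ) (t : ℝ) (z : V n) : V n :=
  WithLp.toLp 2 fun k =>
    if k = i then (Real.cos t : ℂ) * z i - e * (Real.sin t : ℂ) * (starRingEnd ℂ) (z j)
    else if k = j then (Real.cos t : ℂ) * z j + e * (Real.sin t : ℂ) * (starRingEnd ℂ) (z i)
    else z k

theorem fl_apply (i j k : Fin n) (e : ℂ) (t : ℝ) (z : V n) : fl i j e t z k =
    if k = i then (Real.cos t : ℂ) * z i - e * (Real.sin t : ℂ) * (starRingEnd ℂ) (z j)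
    else if k = j then (Real.cos t : ℂ) * z j + e * (Real.sin t : ℂ) * (starRingEnd ℂ) (z i)
    else z k := rfl

theorem fl_add (i j : Fin n) (e : ℂ) (t : ℝ) (x y : V n) : fl i j e t (x + y) = fl i j e t x + fl i j e t y := by
  ext k
  simp only [fl_apply, PiLp.add_apply, map_add]
  split_ifs <;> ring

theorem fl_smul (i j : Fin n) (e : ℂ) (t : ℝ) (r : ℝ) (x : V n) : fl i j e t (r • x) = r • fl i j e t x := by
  ext k
  simp only [fl_apply, PiLp.smul_apply, Complex.real_smul, map_mul, Complex.conj_ofReal]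
  split_ifs <;> ring

theorem fl_norm (i j : Fin n) (hij : i ≠ j) (e : ℂ) (he : ‖e‖ = 1) (t : ℝ) (x : V n) :
    ‖fl i j e t x‖ = ‖x‖ := by
  have h : ‖fl i j e t x‖ ^ 2 = ‖x‖ ^ 2 := by
    rw [EuclideanSpace.norm_sq_eq, EuclideanSpace.norm_sq_eq,
      ← Finset.add_sum_erase _ _ (Finset.mem_univ i),
      ← Finset.add_sum_erase _ _ (Finset.mem_erase.mpr ⟨hij.symm, Finset.mem_univ j⟩),
      ← Finset.add_sum_erase (Finset.univ) (fun k => ‖x k‖ ^ 2) (Finset.mem_univ i),
      ← Finset.add_sum_erase (Finset.univ.erase i) (fun k => ‖x k‖ ^ 2) (Finset.mem_erase.mpr ⟨hij.symm, Finset.mem_univ j⟩),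
      ← add_assoc, ← add_assoc]
    have h1 : ∀ k ∈ (Finset.univ.erase i).erase j, ‖fl i j e t x k‖ ^ 2 = ‖x k‖ ^ 2 := by
      intro k hk
      simp only [Finset.mem_erase, Finset.mem_univ, and_true] at hk
      rw [fl_apply, if_neg hk.2, if_neg hk.1]
    rw [Finset.sum_congr rfl h1]
    congr 1
    rw [fl_apply, fl_apply, if_pos rfl, if_neg hij.symm, if_pos rfl]
    have h2 : (e * (starRingEnd ℂ) e) = 1 := by
      rw [Complex.mul_conj, Complex.normSq_eq_norm_sq, he]; simp
    have h3 : ∀ w : ℂ, ((‖w‖ ^ 2 : ℝ) : ℂ) = w * (starRingEnd ℂ) w := by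
      intro w; rw [Complex.mul_conj, Complex.normSq_eq_norm_sq]
    have h4 : ((Real.cos t : ℂ)) ^ 2 + (Real.sin t : ℂ) ^ 2 = 1 := by
      rw [← Complex.ofReal_pow, ← Complex.ofReal_pow, ← Complex.ofReal_add, Real.cos_sq_add_sin_sq, Complex.ofReal_one]
    have h5 : ((‖(Real.cos t : ℂ) * x i - e * (Real.sin t : ℂ) * (starRingEnd ℂ) (x j)‖ ^ 2 +
        ‖(Real.cos t : ℂ) * x j + e * (Real.sin t : ℂ) * (starRingEnd ℂ) (x i)‖ ^ 2 : ℝ) : ℂ) =
        ((‖x i‖ ^ 2 + ‖x j‖ ^ 2 : ℝ) : ℂ) := by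
      rw [Complex.ofReal_add, Complex.ofReal_add, h3, h3, h3, h3]
      simp only [map_sub, map_add, map_mul, Complex.conj_ofReal, Complex.conj_conj]
      linear_combination (x i * (starRingEnd ℂ) (x i) + x j * (starRingEnd ℂ) (x j)) * h4 +
        ((Real.sin t : ℂ) ^ 2 * (x i * (starRingEnd ℂ) (x i) + x j * (starRingEnd ℂ) (x j))) * h2
    exact_mod_cast h5
  exact (sq_eq_sq₀ (norm_nonneg _) (norm_nonneg _)).mp h

theorem fl_mp (i j : Fin n) (hij : i ≠ j) (e : ℂ) (he : ‖e‖ = 1) (t : ℝ) :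
    MeasurePreserving (fl i j e t : V n → V n) (volume : Measure (V n)) volume :=
  mp_of_isom _ (fl_add i j e t) (fl_smul i j e t) (fl_norm i j hij e he t)

theorem fl_cont (i j : Fin n) (e : ℂ) : Continuous fun p : ℝ × V n => fl i j e p.1 p.2 := by
  have h : ∀ k, Continuous fun p : ℝ × V n => fl i j e p.1 p.2 k := by
    intro k
    simp only [fl_apply]
    split_ifs <;> fun_prop
  exact (PiLp.continuous_toLp 2 _).comp (continuous_pi h)

theorem fl_deriv (i j : Fin n) (hij : i ≠ j) (e : ℂ) (he : ‖e‖ = 1) (t : ℝ) (z : V n) :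
    HasDerivAt (fun s : ℝ => fl i j e s z) (e • jj i j (fl i j e t z)) t := by
  have h2 : (e * (starRingEnd ℂ) e) = 1 := by
    rw [Complex.mul_conj, Complex.normSq_eq_norm_sq, he]; simp
  have hcos : HasDerivAt (fun s : ℝ => (Real.cos s : ℂ)) (-(Real.sin t : ℂ)) t := by
    have := (Real.hasDerivAt_cos t).ofReal_comp
    simpa using this
  have hsin : HasDerivAt (fun s : ℝ => (Real.sin s : ℂ)) (Real.cos t : ℂ) t :=
    (Real.hasDerivAt_sin t).ofReal_comp
  have h : ∀ k, HasDerivAt (fun s : ℝ => fl i j e s z k) ((e • jj i j (fl i j e t z)) k) t := by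
    intro k
    by_cases hi : k = i
    · subst hi
      have h1 : (e • jj k j (fl k j e t z)) k = -(Real.sin t : ℂ) * z k - e * (Real.cos t : ℂ) * (starRingEnd ℂ) (z j) := by
        rw [PiLp.smul_apply, smul_eq_mul, jj_apply, if_neg hij, if_pos rfl, fl_apply, if_neg hij.symm, if_pos rfl]
        simp only [map_add, map_mul, Complex.conj_ofReal, Complex.conj_conj]
        linear_combination (-(Real.sin t : ℂ) * z k) * h2
      rw [h1]
      have h3 : (fun s : ℝ => fl k j e s z k) = fun s : ℝ => (Real.cos s : ℂ) * z k - e * (Real.sin s : ℂ) * (starRingEnd ℂ) (z j) := by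
        funext s; rw [fl_apply, if_pos rfl]
      rw [h3]
      exact (hcos.mul_const _).sub ((hsin.const_mul e).mul_const _)
    · by_cases hj : k = j
      · subst hj
        have h1 : (e • jj i k (fl i k e t z)) k = -(Real.sin t : ℂ) * z k + e * (Real.cos t : ℂ) * (starRingEnd ℂ) (z i) := by
          rw [PiLp.smul_apply, smul_eq_mul, jj_apply, if_pos rfl, if_neg hi, fl_apply, if_pos rfl]
          simp only [map_sub, map_mul, Complex.conj_ofReal, Complex.conj_conj]
          linear_combination (-(Real.sin t : ℂ) * z k) * h2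
        rw [h1]
        have h3 : (fun s : ℝ => fl i k e s z k) = fun s : ℝ => (Real.cos s : ℂ) * z k + e * (Real.sin s : ℂ) * (starRingEnd ℂ) (z i) := by
          funext s; rw [fl_apply, if_neg hi, if_pos rfl]
        rw [h3]
        exact (hcos.mul_const _).add ((hsin.const_mul e).mul_const _)
      · have h1 : (e • jj i j (fl i j e t z)) k = 0 := by
          rw [PiLp.smul_apply, smul_eq_mul, jj_apply, if_neg hj, if_neg hi, sub_zero, mul_zero]
        rw [h1]
        have h3 : (fun s : ℝ => fl i j e s z k) = fun _ => z k := by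
          funext s; rw [fl_apply, if_neg hi, if_neg hj]
        rw [h3]
        exact hasDerivAt_const _ _
  have h4 : HasDerivAt (fun s : ℝ => fun k => fl i j e s z k) (fun k => (e • jj i j (fl i j e t z)) k) t :=
    hasDerivAt_pi.mpr h
  have h5 := ((PiLp.continuousLinearEquiv 2 ℝ (fun _ : Fin n => ℂ)).symm :
    (Fin n → ℂ) →L[ℝ] V n).hasFDerivAt.comp_hasDerivAt t h4
  exact h5

end Pool.Agent.H44.SP
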