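import Pool.Agent.H44.SP.Defs

/-!
# [H44 SP Hd] The derivative of a holomorphic function of several variables

* `cont_fderiv`: Cauchy: for `ball x (2 ρ) ⊆ ball 0 1`, `‖x' - x‖ < ρ`, `‖w‖ ≤ 1`: `fderiv ℂ f x' w - fderiv ℂ f x w` is the derivative at `0` of `τ ↦ f (x' + τ w) - f (x + τ w)`, which is
  differentiable for `|τ| < ρ`, so its norm is at most `ρ'⁻¹ * sup {‖f (x' + u) - f (x + u)‖ : ‖u‖ ≤ ρ'}`, `ρ' = ρ / 2` (`Complex.norm_deriv_le_of_forall_mem_sphere_norm_le`), and this goes to `0` as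
  `x' → x` by uniform continuity of `f` on a compact ball.
* `hol_fderiv`: let `U = {τ | a + τ • v ∈ ball 0 1}` (open). For `h ≠ 0` the difference quotient `Q h τ = (f (a + τ v + h w) - f (a + τ v)) / h` is differentiable in `τ` near each compact
  `K ⊆ U` for small `h`, and `Q h τ → fderiv ℂ f (a + τ v) w` uniformly on `K`: `Q h τ - fderiv ℂ f (a + τ v) w` is at most `sup ‖fderiv ℂ f (a + τ v + s h w) - fderiv ℂ f (a + τ v)‖ * ‖w‖` over
  `0 ≤ s ≤ 1` (mean value), which goes to `0` uniformly by `cont_fderiv`. Then `TendstoLocallyUniformlyOn.differentiableOn` (Mathlib.Analysis.Complex.LocallyUniformLimit).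
  (Local version: it is enough to prove `DifferentiableAt` at each `τ₀ ∈ U`, on a small ball around `τ₀`.)
-/

set_option autoImplicit false

namespace Pool.Agent.H44.SP

open MeasureTheory Metric Pool.Agent.H74.CB

variable {n : ℕ}

theorem cont_fderiv (f : V n → ℂ) (hf : DifferentiableOn ℂ f (ball (0 : V n) 1)) :
    ContinuousOn (fun z => fderiv ℂ f z) (ball (0 : V n) 1) := by
  intro x hx
  refine ContinuousAt.continuousWithinAt ?_
  rw [Metric.continuousAt_iff]
  intro ε hε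
  have hx1 : ‖x‖ < 1 := by simpa using hx
  obtain ⟨R, hR0, hR1⟩ : ∃ R : ℝ, 0 < R ∧ 2 * R + ‖x‖ < 1 := ⟨(1 - ‖x‖) / 3, by linarith, by linarith⟩
  have hsub : closedBall x (2 * R) ⊆ ball (0 : V n) 1 := by
    intro y hy
    rw [mem_closedBall, dist_eq_norm] at hy
    rw [mem_ball_zero_iff]
    have h1 : ‖y‖ ≤ ‖y - x‖ + ‖x‖ := by simpa using norm_add_le (y - x) x
    linarith
  have huc : UniformContinuousOn f (closedBall x (2 * R)) :=
    (isCompact_closedBall x (2 * R)).uniformContinuousOn_of_continuous (hf.continuousOn.mono hsub)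
  rw [Metric.uniformContinuousOn_iff] at huc
  obtain ⟨δ, hδ, hu⟩ := huc (ε * R / 4) (by positivity)
  refine ⟨min δ R, lt_min hδ hR0, ?_⟩
  intro y hy
  have hy1 : ‖y - x‖ < δ := by rw [← dist_eq_norm]; exact lt_of_lt_of_le hy (min_le_left _ _)
  have hy2 : ‖y - x‖ < R := by rw [← dist_eq_norm]; exact lt_of_lt_of_le hy (min_le_right _ _)
  have hfa : ∀ z ∈ closedBall x (2 * R), DifferentiableAt ℂ f z :=
    fun z hz => hf.differentiableAt (isOpen_ball.mem_nhds (hsub hz))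
  have hm1 : ∀ u ∈ ball x R, u ∈ closedBall x (2 * R) := by
    intro u hu1
    rw [mem_ball] at hu1
    rw [mem_closedBall]
    linarith
  have hm2 : ∀ u ∈ ball x R, (y - x) + u ∈ closedBall x (2 * R) := by
    intro u hu1
    rw [mem_ball, dist_eq_norm] at hu1
    rw [mem_closedBall, dist_eq_norm, add_sub_assoc]
    have h1 := norm_add_le (y - x) (u - x)
    linarith
  have hsm : ∀ u ∈ ball x R, ‖f ((y - x) + u) - f u‖ < ε * R / 4 := by
    intro u hu1
    have h1 := hu _ (hm2 u hu1) _ (hm1 u hu1) (by rw [dist_eq_norm, add_sub_cancel_right]; exact hy1)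
    rwa [dist_eq_norm] at h1
  have hxm : x ∈ ball x R := mem_ball_self hR0
  have hd2 : ∀ u ∈ ball x R, DifferentiableAt ℂ (fun u => f ((y - x) + u)) u := by
    intro u hu1
    exact DifferentiableAt.comp u (hfa _ (hm2 u hu1)) (by fun_prop)
  have hg : DifferentiableOn ℂ (fun u => f ((y - x) + u) - f u) (ball x R) := by
    intro u hu1
    exact ((hd2 u hu1).sub (hfa _ (hm1 u hu1))).differentiableWithinAt
  have hmaps : Set.MapsTo (fun u => f ((y - x) + u) - f u) (ball x R)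
      (closedBall ((fun u => f ((y - x) + u) - f u) x) (ε * R / 2)) := by
    intro u hu1
    rw [mem_closedBall, dist_eq_norm]
    have h1 := hsm u hu1
    have h2 := hsm x hxm
    have h3 := norm_sub_le (f ((y - x) + u) - f u) (f ((y - x) + x) - f x)
    simp only
    linarith
  have h1 := Complex.norm_fderiv_le_div_of_mapsTo_ball hg hmaps hR0
  have h2 : fderiv ℂ (fun u => f ((y - x) + u) - f u) x = fderiv ℂ f y - fderiv ℂ f x := by
    have h3 : fderiv ℂ (fun u => f ((y - x) + u) - f u) x =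
        fderiv ℂ (fun u => f ((y - x) + u)) x - fderiv ℂ f x := fderiv_fun_sub (hd2 x hxm) (hfa _ (hm1 x hxm))
    rw [h3, fderiv_comp_add_left, sub_add_cancel]
  rw [h2] at h1
  rw [dist_eq_norm]
  have h4 : ε * R / 2 / R = ε / 2 := by field_simp
  rw [h4] at h1
  linarith

theorem hol_fderiv (f : V n → ℂ) (hf : DifferentiableOn ℂ f (ball (0 : V n) 1)) (a v w : V n) :
    DifferentiableOn ℂ (fun τ : ℂ => fderiv ℂ f (a + τ • v) w) {τ : ℂ | a + τ • v ∈ ball (0 : V n) 1} := by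
  intro τ₀ hτ₀
  refine DifferentiableAt.differentiableWithinAt ?_
  have hfa : ∀ z ∈ ball (0 : V n) 1, DifferentiableAt ℂ f z :=
    fun z hz => hf.differentiableAt (isOpen_ball.mem_nhds hz)
  have hb1 : ‖a + τ₀ • v‖ < 1 := by simpa using hτ₀
  obtain ⟨R, hR0, hR1⟩ : ∃ R : ℝ, 0 < R ∧ 2 * R + ‖a + τ₀ • v‖ < 1 :=
    ⟨(1 - ‖a + τ₀ • v‖) / 3, by linarith, by linarith⟩
  have hr0 : 0 < R / (‖v‖ + 1) := by positivity
  have hnear : ∀ τ ∈ ball τ₀ (R / (‖v‖ + 1)), ‖a + τ • v‖ < R + ‖a + τ₀ • v‖ := by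
    intro τ hτ
    rw [mem_ball, dist_eq_norm] at hτ
    have h1 : a + τ • v = (τ - τ₀) • v + (a + τ₀ • v) := by rw [sub_smul]; abel
    have h2 : ‖(τ - τ₀) • v‖ < R := by
      rw [norm_smul]
      have h3 : ‖τ - τ₀‖ * (‖v‖ + 1) < R := by
        rwa [lt_div_iff₀ (by positivity)] at hτ
      nlinarith [norm_nonneg (τ - τ₀), norm_nonneg v]
    rw [h1]
    refine lt_of_le_of_lt (norm_add_le _ _) ?_
    linarith
  have hlim : TendstoLocallyUniformlyOn (fun h : ℂ => fun τ : ℂ => h⁻¹ * (f ((a + τ • v) + h • w) - f (a + τ • v)))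
      (fun τ : ℂ => fderiv ℂ f (a + τ • v) w) (nhdsWithin 0 {0}ᶜ) (ball τ₀ (R / (‖v‖ + 1))) := by
    rw [Metric.tendstoLocallyUniformlyOn_iff]
    intro ε hε τ₁ hτ₁
    have hz₁ : a + τ₁ • v ∈ ball (0 : V n) 1 := by
      rw [mem_ball_zero_iff]
      have := hnear τ₁ hτ₁
      linarith
    have hc : ContinuousAt (fun z => fderiv ℂ f z) (a + τ₁ • v) :=
      (cont_fderiv f hf).continuousAt (isOpen_ball.mem_nhds hz₁)
    have hs : HasStrictFDerivAt f (fderiv ℂ f (a + τ₁ • v)) (a + τ₁ • v) :=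
      hasStrictFDerivAt_of_hasFDerivAt_of_continuousAt
        (Filter.eventually_of_mem (isOpen_ball.mem_nhds hz₁) fun z hz => (hfa z hz).hasFDerivAt) hc
    have hη : 0 < ε / (2 * (‖w‖ + 1)) := by positivity
    have h1 := hs.isLittleO.def hη
    have h1' : ∀ᶠ q : ℂ × ℂ in nhds (0, τ₁), ‖f ((a + q.2 • v) + q.1 • w) - f (a + q.2 • v) -
        fderiv ℂ f (a + τ₁ • v) (((a + q.2 • v) + q.1 • w) - (a + q.2 • v))‖ ≤
        ε / (2 * (‖w‖ + 1)) * ‖((a + q.2 • v) + q.1 • w) - (a + q.2 • v)‖ := by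
      have hcont : Continuous fun q : ℂ × ℂ => (((a + q.2 • v) + q.1 • w, a + q.2 • v) : V n × V n) := by fun_prop
      have ht := hcont.tendsto (0, τ₁)
      simp only [zero_smul, add_zero] at ht
      exact ht.eventually h1
    have h2 : ∀ᶠ q : ℂ × ℂ in nhds (0, τ₁), ‖fderiv ℂ f (a + q.2 • v) - fderiv ℂ f (a + τ₁ • v)‖ < ε / (2 * (‖w‖ + 1)) := by
      have hcont : Continuous fun q : ℂ × ℂ => a + q.2 • v := by fun_prop
      have ht := hcont.tendsto (0, τ₁)
      have h3 := hc.tendsto.comp ht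
      have h4 := h3.eventually (Metric.ball_mem_nhds _ hη)
      filter_upwards [h4] with q hq
      rw [← dist_eq_norm]
      exact hq
    have h3 := (h1'.and h2)
    rw [nhds_prod_eq, Filter.eventually_prod_iff] at h3
    obtain ⟨pa, hpa, pb, hpb, hab⟩ := h3
    refine ⟨{τ | pb τ}, mem_nhdsWithin_of_mem_nhds hpb, ?_⟩
    have hpa' : ∀ᶠ h in nhdsWithin (0 : ℂ) {0}ᶜ, pa h := hpa.filter_mono nhdsWithin_le_nhds
    filter_upwards [hpa', self_mem_nhdsWithin] with h hh hh0 τ hτ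
    have hne : h ≠ 0 := by simpa using hh0
    obtain ⟨h5, h6⟩ := hab hh hτ
    simp only at h5 h6
    rw [add_sub_cancel_left] at h5
    rw [dist_eq_norm]
    have h7 : fderiv ℂ f (a + τ • v) w - h⁻¹ * (f ((a + τ • v) + h • w) - f (a + τ • v)) =
        (fderiv ℂ f (a + τ • v) - fderiv ℂ f (a + τ₁ • v)) w -
        h⁻¹ * (f ((a + τ • v) + h • w) - f (a + τ • v) - fderiv ℂ f (a + τ₁ • v) (h • w)) := by
      rw [ContinuousLinearMap.map_smul, ContinuousLinearMap.sub_apply, smul_eq_mul]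
      field_simp
      ring
    rw [h7]
    have hpos : 0 < ‖w‖ + 1 := by positivity
    have h8 : ‖(fderiv ℂ f (a + τ • v) - fderiv ℂ f (a + τ₁ • v)) w‖ ≤ ε / (2 * (‖w‖ + 1)) * ‖w‖ :=
      (ContinuousLinearMap.le_opNorm _ _).trans (mul_le_mul_of_nonneg_right h6.le (norm_nonneg _))
    have h9 : ‖h⁻¹ * (f ((a + τ • v) + h • w) - f (a + τ • v) - fderiv ℂ f (a + τ₁ • v) (h • w))‖ ≤
        ε / (2 * (‖w‖ + 1)) * ‖w‖ := by
      rw [norm_mul, norm_inv]
      have hn : 0 < ‖h‖ := norm_pos_iff.mpr hne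
      rw [norm_smul] at h5
      calc ‖h‖⁻¹ * ‖f ((a + τ • v) + h • w) - f (a + τ • v) - fderiv ℂ f (a + τ₁ • v) (h • w)‖
          ≤ ‖h‖⁻¹ * (ε / (2 * (‖w‖ + 1)) * (‖h‖ * ‖w‖)) := mul_le_mul_of_nonneg_left h5 (by positivity)
        _ = ε / (2 * (‖w‖ + 1)) * ‖w‖ := by field_simp
    refine lt_of_le_of_lt (norm_sub_le _ _) ?_
    refine lt_of_le_of_lt (add_le_add h8 h9) ?_
    have h10 : ε / (2 * (‖w‖ + 1)) * (‖w‖ + 1) = ε / 2 := by field_simp
    nlinarith
  have hdiff : ∀ᶠ h in nhdsWithin (0 : ℂ) {0}ᶜ, DifferentiableOn ℂ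
      (fun τ : ℂ => h⁻¹ * (f ((a + τ • v) + h • w) - f (a + τ • v))) (ball τ₀ (R / (‖v‖ + 1))) := by
    have hw0 : 0 < R / (‖w‖ + 1) := by positivity
    have h1 : ∀ᶠ h in nhdsWithin (0 : ℂ) {0}ᶜ, h ∈ ball (0 : ℂ) (R / (‖w‖ + 1)) :=
      mem_nhdsWithin_of_mem_nhds (ball_mem_nhds _ hw0)
    filter_upwards [h1] with h hh τ hτ
    rw [mem_ball_zero_iff] at hh
    have h2 : ‖h • w‖ < R := by
      rw [norm_smul]
      have h3 : ‖h‖ * (‖w‖ + 1) < R := by
        rwa [lt_div_iff₀ (by positivity)] at hh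
      nlinarith [norm_nonneg h, norm_nonneg w]
    have h4 := hnear τ hτ
    have h5 : DifferentiableAt ℂ f ((a + τ • v) + h • w) := by
      refine hfa _ ?_
      rw [mem_ball_zero_iff]
      refine lt_of_le_of_lt (norm_add_le _ _) ?_
      linarith
    have h6 : DifferentiableAt ℂ f (a + τ • v) := by
      refine hfa _ ?_
      rw [mem_ball_zero_iff]
      linarith
    refine DifferentiableAt.differentiableWithinAt ?_
    refine DifferentiableAt.const_mul (DifferentiableAt.sub ?_ ?_) _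
    · exact DifferentiableAt.comp (f := fun τ : ℂ => (a + τ • v) + h • w) τ h5 (by fun_prop)
    · exact DifferentiableAt.comp (f := fun τ : ℂ => a + τ • v) τ h6 (by fun_prop)
  exact (hlim.differentiableOn hdiff isOpen_ball).differentiableAt (ball_mem_nhds _ hr0)

end Pool.Agent.H44.SP
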