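import Mathlib

/-!
# [H44 SP Uq] Boundary uniqueness in the disc

`uniq`: Jensen's formula. If `F` is not identically `0`, the circle averages of `log ‖F‖` over the circles of radius
`r`, `1/2 ≤ r < 1`, are bounded from below (`avg_lower`); on circles without zeros of `F` (all radii but countably
many, `zeros_countable`) `log ‖F z‖ ≤ log (max (2 * M z) (exp (-K)))`, which is continuous on the closed disc; let
`r → 1`.
-/

set_option autoImplicit false

namespace Pool.Agent.H44.SP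

open MeasureTheory Metric

private theorem zeros_countable {F : ℂ → ℂ} (hF : AnalyticOnNhd ℂ F (ball (0 : ℂ) 1)) {l0 : ℂ}
    (hl0 : l0 ∈ ball (0 : ℂ) 1) (hne : F l0 ≠ 0) : ((F ⁻¹' {0}ᶜ)ᶜ ∩ ball (0 : ℂ) 1).Countable := by
  refine (HereditarilyLindelofSpace.isLindelof _).countable_of_isDiscrete
    (isDiscrete_of_codiscreteWithin ?_)
  simpa using hF.preimage_zero_mem_codiscreteWithin hne hl0
    ⟨⟨0, by simp⟩, (convex_ball (0 : ℂ) 1).isPreconnected⟩

private theorem avg_lower {F : ℂ → ℂ} (hF : AnalyticOnNhd ℂ F (ball (0 : ℂ) 1)) :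
    ∃ C : ℝ, ∀ r : ℝ, 1 / 2 ≤ r → r < 1 →
      -C ≤ Real.circleAverage (fun z => Real.log ‖F z‖) 0 r := by
  refine ⟨-((((meromorphicOrderAt F 0).untop₀ : ℤ) : ℝ) * Real.log (1 / 2) +
    Real.log ‖meromorphicTrailingCoeffAt F 0‖), fun r h1 h2 => ?_⟩
  have hr0 : 0 < r := by linarith
  have habs : |r| = r := abs_of_pos hr0
  have hsub : closedBall (0 : ℂ) |r| ⊆ ball 0 1 := closedBall_subset_ball (by rw [habs]; exact h2)
  have ha := hF.mono hsub
  have hd : ∀ u, 0 ≤ MeromorphicOn.divisor F (closedBall (0 : ℂ) |r|) u := fun u =>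
    MeromorphicOn.AnalyticOnNhd.divisor_nonneg ha u
  have h := ha.meromorphicOn.circleAverage_log_norm hr0.ne'
  have h0 : MeromorphicOn.divisor F (closedBall (0 : ℂ) |r|) 0 = (meromorphicOrderAt F 0).untop₀ :=
    MeromorphicOn.divisor_apply ha.meromorphicOn (by simp)
  have h3 : 0 ≤ ∑ᶠ u, (MeromorphicOn.divisor F (closedBall (0 : ℂ) |r|) u : ℝ) *
      Real.log (r * ‖(0 : ℂ) - u‖⁻¹) := by
    refine finsum_nonneg fun u => ?_
    by_cases hu : u ∈ closedBall (0 : ℂ) |r|
    · refine mul_nonneg (by exact_mod_cast hd u) ?_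
      by_cases hu0 : u = 0
      · simp [hu0]
      · refine Real.log_nonneg ?_
        have hun : 0 < ‖u‖ := norm_pos_iff.2 hu0
        have hur : ‖u‖ ≤ r := by
          rw [mem_closedBall_zero_iff, habs] at hu
          exact hu
        rw [zero_sub, norm_neg, ← div_eq_mul_inv, le_div_iff₀ hun, one_mul]
        exact hur
    · rw [Function.locallyFinsuppWithin.apply_eq_zero_of_notMem _ hu]
      simp
  rw [h, h0, neg_neg]
  have h4 : (0 : ℝ) ≤ (((meromorphicOrderAt F 0).untop₀ : ℤ) : ℝ) := by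
    have := hd 0
    rw [h0] at this
    exact_mod_cast this
  have h5 : Real.log (1 / 2) ≤ Real.log r := Real.log_le_log (by norm_num) h1
  have h6 := mul_le_mul_of_nonneg_left h5 h4
  linarith

theorem uniq (F : ℂ → ℂ) (hF : DifferentiableOn ℂ F (ball (0 : ℂ) 1)) (M : ℂ → ℝ)
    (hM : ContinuousOn M (closedBall (0 : ℂ) 1)) (hb : ∀ l : ℂ, ‖l‖ < 1 → ‖l‖ * ‖F l‖ ≤ M l)
    (hpos : volume {θ : ℝ | θ ∈ Set.Ioo 0 (2 * Real.pi) ∧
      M (Complex.exp ((θ : ℂ) * Complex.I)) = 0} ≠ 0) :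
    ∀ l ∈ ball (0 : ℂ) 1, F l = 0 := by
  by_contra hcon
  push Not at hcon
  obtain ⟨l0, hl0, hne⟩ := hcon
  have hFa : AnalyticOnNhd ℂ F (ball (0 : ℂ) 1) := hF.analyticOnNhd isOpen_ball
  obtain ⟨C, hC⟩ := avg_lower hFa
  have hpi := Real.pi_pos
  set E : Set ℝ := {θ : ℝ | θ ∈ Set.Ioo 0 (2 * Real.pi) ∧
    M (Complex.exp ((θ : ℂ) * Complex.I)) = 0} with hE
  have hEsub : E ⊆ Set.Ioc 0 (2 * Real.pi) := fun θ hθ => ⟨hθ.1.1, hθ.1.2.le⟩
  have hcont : Continuous fun θ : ℝ => M (Complex.exp ((θ : ℂ) * Complex.I)) := by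
    refine hM.comp_continuous (by fun_prop) fun θ => ?_
    rw [mem_closedBall_zero_iff, Complex.norm_exp_ofReal_mul_I]
  have hEm : MeasurableSet E := by
    have : E = Set.Ioo 0 (2 * Real.pi) ∩
        (fun θ : ℝ => M (Complex.exp ((θ : ℂ) * Complex.I))) ⁻¹' {0} := by
      ext θ
      rfl
    rw [this]
    exact measurableSet_Ioo.inter (hcont.measurable (measurableSet_singleton 0))
  obtain ⟨B, hB⟩ := (isCompact_closedBall (0 : ℂ) 1).exists_bound_of_continuousOn hM
  have hB0 : 0 ≤ B := (norm_nonneg _).trans (hB 0 (by simp))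
  obtain ⟨L, hLdef⟩ : ∃ L, L = Real.log (2 * B + 1) := ⟨_, rfl⟩
  have hL : 0 ≤ L := by
    rw [hLdef]
    exact Real.log_nonneg (by linarith)
  have hEfin : volume E ≠ ⊤ := by
    refine ne_top_of_le_ne_top ?_ (measure_mono hEsub)
    rw [Real.volume_Ioc]
    exact ENNReal.ofReal_ne_top
  obtain ⟨κ, hκdef⟩ : ∃ κ, κ = (volume E).toReal := ⟨_, rfl⟩
  have hκ : 0 < κ := by
    rw [hκdef]
    exact ENNReal.toReal_pos hpos hEfin
  obtain ⟨K, hKdef⟩ : ∃ K, K = (2 * Real.pi * L + 2 * Real.pi * |C| + 1) / κ := ⟨_, rfl⟩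
  have hK : 0 ≤ K := by
    rw [hKdef]
    positivity
  obtain ⟨g, hgdef⟩ : ∃ g : ℂ → ℝ, g = fun z => Real.log (max (2 * M z) (Real.exp (-K))) := ⟨_, rfl⟩
  have hg : ContinuousOn g (closedBall 0 1) := by
    rw [hgdef]
    refine ContinuousOn.log ((continuousOn_const.mul hM).sup continuousOn_const) (fun z _ => ?_)
    exact (lt_of_lt_of_le (Real.exp_pos _) (le_max_right _ _)).ne'
  obtain ⟨Φ, hΦdef⟩ : ∃ Φ : ℝ → ℝ, Φ = fun r => ∫ θ in (0)..(2 * Real.pi),
    g (circleMap 0 (max 0 (min r 1)) θ) := ⟨_, rfl⟩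
  have hΦ : Continuous Φ := by
    rw [hΦdef]
    refine intervalIntegral.continuous_parametric_intervalIntegral_of_continuous' ?_ _ _
    refine hg.comp_continuous ?_ ?_
    · unfold circleMap
      fun_prop
    · rintro ⟨r, θ⟩
      rw [mem_closedBall_zero_iff, norm_circleMap_zero]
      show |max 0 (min r 1)| ≤ 1
      rw [abs_of_nonneg (le_max_left _ _)]
      exact max_le zero_le_one (min_le_right _ _)
  -- circles without zeros
  have hgood : ∀ r ∈ Set.Ioo (1 / 2 : ℝ) 1,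
      r ∈ ((fun z : ℂ => ‖z‖) '' ((F ⁻¹' {0}ᶜ)ᶜ ∩ ball (0 : ℂ) 1))ᶜ → -(2 * Real.pi * C) ≤ Φ r := by
    intro r hr hrz
    have hr0 : 0 < r := by linarith [hr.1]
    have habs : |r| = r := abs_of_pos hr0
    have hsub : closedBall (0 : ℂ) |r| ⊆ ball 0 1 := closedBall_subset_ball (by rw [habs]; exact hr.2)
    have h1 := hC r hr.1.le hr.2
    have h2 : Real.circleAverage (fun z => Real.log ‖F z‖) 0 r ≤ Real.circleAverage g 0 r := by
      refine Real.circleAverage_mono ?_ ?_ ?_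
      · exact ((hFa.mono hsub).mono sphere_subset_closedBall).meromorphicOn.circleIntegrable_log_norm
      · refine ContinuousOn.circleIntegrable hr0.le (hg.mono ?_)
        exact sphere_subset_closedBall.trans (closedBall_subset_closedBall hr.2.le)
      · intro z hz
        have hzn : ‖z‖ = r := by
          rw [mem_sphere_zero_iff_norm, habs] at hz
          exact hz
        have hzb : z ∈ ball (0 : ℂ) 1 := by
          rw [mem_ball_zero_iff, hzn]
          exact hr.2
        have hFz : F z ≠ 0 := by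
          intro h
          exact hrz ⟨z, ⟨by simp [h], hzb⟩, hzn⟩
        have h3 := hb z (by rw [hzn]; exact hr.2)
        rw [hzn] at h3
        have h4 : 0 < ‖F z‖ := norm_pos_iff.2 hFz
        have h5 : ‖F z‖ ≤ 2 * M z := by nlinarith [hr.1]
        rw [hgdef]
        exact Real.log_le_log h4 (h5.trans (le_max_left _ _))
    have h6 : Real.circleAverage g 0 r = (2 * Real.pi)⁻¹ * Φ r := by
      rw [hΦdef]
      unfold Real.circleAverage
      beta_reduce
      rw [min_eq_left hr.2.le, max_eq_right hr0.le, smul_eq_mul]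
    rw [h6] at h2
    have h7 : -C ≤ (2 * Real.pi)⁻¹ * Φ r := h1.trans h2
    have h8 := mul_le_mul_of_nonneg_left h7 (by positivity : 0 ≤ 2 * Real.pi)
    rw [mul_inv_cancel_left₀ (by positivity : (2 * Real.pi) ≠ 0)] at h8
    linarith
  have h1 : -(2 * Real.pi * C) ≤ Φ 1 := by
    have hd : Dense ((fun z : ℂ => ‖z‖) '' ((F ⁻¹' {0}ᶜ)ᶜ ∩ ball (0 : ℂ) 1))ᶜ :=
      ((zeros_countable hFa hl0 hne).image _).dense_compl ℝ
    have hcl : IsClosed {r : ℝ | -(2 * Real.pi * C) ≤ Φ r} := isClosed_le continuous_const hΦ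
    have h2 : (1 : ℝ) ∈ closure (Set.Ioo (1 / 2 : ℝ) 1) := by
      rw [closure_Ioo (by norm_num)]
      exact ⟨by norm_num, le_rfl⟩
    have h3 : closure (Set.Ioo (1 / 2 : ℝ) 1) ⊆ closure (Set.Ioo (1 / 2 : ℝ) 1 ∩
        ((fun z : ℂ => ‖z‖) '' ((F ⁻¹' {0}ᶜ)ᶜ ∩ ball (0 : ℂ) 1))ᶜ) :=
      closure_minimal (hd.open_subset_closure_inter isOpen_Ioo) isClosed_closure
    have h4 : Set.Ioo (1 / 2 : ℝ) 1 ∩ ((fun z : ℂ => ‖z‖) '' ((F ⁻¹' {0}ᶜ)ᶜ ∩ ball (0 : ℂ) 1))ᶜ ⊆
        {r : ℝ | -(2 * Real.pi * C) ≤ Φ r} := fun r hr => hgood r hr.1 hr.2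
    exact (closure_minimal h4 hcl) (h3 h2)
  -- the upper bound
  have h2 : Φ 1 ≤ 2 * Real.pi * L + (-K - L) * κ := by
    have e1 : Φ 1 = ∫ θ in Set.Ioc 0 (2 * Real.pi), g (Complex.exp ((θ : ℂ) * Complex.I)) := by
      rw [hΦdef]
      simp only
      rw [intervalIntegral.integral_of_le (by positivity)]
      refine setIntegral_congr_fun measurableSet_Ioc fun θ _ => ?_
      simp [circleMap]
    have hgc : Continuous fun θ : ℝ => g (Complex.exp ((θ : ℂ) * Complex.I)) := by
      refine hg.comp_continuous (by fun_prop) fun θ => ?_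
      rw [mem_closedBall_zero_iff, Complex.norm_exp_ofReal_mul_I]
    have i1 : IntegrableOn (fun θ : ℝ => g (Complex.exp ((θ : ℂ) * Complex.I)))
        (Set.Ioc 0 (2 * Real.pi)) := by
      have := (hgc.intervalIntegrable 0 (2 * Real.pi) (μ := volume)).1
      exact this
    have i2 : IntegrableOn (fun _ : ℝ => L) (Set.Ioc 0 (2 * Real.pi)) :=
      integrableOn_const (by rw [Real.volume_Ioc]; exact ENNReal.ofReal_ne_top)
    have i3 : IntegrableOn (E.indicator fun _ : ℝ => (-K - L)) (Set.Ioc 0 (2 * Real.pi)) :=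
      (integrableOn_const (by rw [Real.volume_Ioc]; exact ENNReal.ofReal_ne_top) :
        IntegrableOn (fun _ : ℝ => (-K - L)) (Set.Ioc 0 (2 * Real.pi))).indicator hEm
    have e2 : ∫ θ in Set.Ioc 0 (2 * Real.pi), (L + E.indicator (fun _ : ℝ => (-K - L)) θ) =
        2 * Real.pi * L + (-K - L) * κ := by
      rw [integral_add i2 i3, setIntegral_const, integral_indicator hEm,
        Measure.restrict_restrict hEm, Set.inter_eq_left.2 hEsub, setIntegral_const]
      rw [Real.volume_real_Ioc_of_le (by positivity), measureReal_def, ← hκdef]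
      simp only [smul_eq_mul]
      ring
    rw [e1, ← e2]
    refine setIntegral_mono_on i1 (i2.add i3) measurableSet_Ioc fun θ hθ => ?_
    by_cases hθE : θ ∈ E
    · have : M (Complex.exp ((θ : ℂ) * Complex.I)) = 0 := hθE.2
      rw [Set.indicator_of_mem hθE, hgdef]
      simp only
      rw [this, mul_zero, max_eq_right (Real.exp_pos _).le, Real.log_exp]
      linarith
    · rw [Set.indicator_of_notMem hθE, add_zero, hgdef, hLdef]
      refine Real.log_le_log (lt_of_lt_of_le (Real.exp_pos _) (le_max_right _ _)) (max_le ?_ ?_)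
      · have h5 := hB (Complex.exp ((θ : ℂ) * Complex.I))
          (by rw [mem_closedBall_zero_iff, Complex.norm_exp_ofReal_mul_I])
        have h6 := (le_abs_self _).trans h5
        linarith
      · have : Real.exp (-K) ≤ 1 := Real.exp_le_one_iff.2 (by linarith)
        linarith
  have h3 : K * κ = 2 * Real.pi * L + 2 * Real.pi * |C| + 1 := by
    rw [hKdef]
    field_simp
  have h4 : C ≤ |C| := le_abs_self C
  have h5 : 0 ≤ L * κ := by positivity
  nlinarith [h1, h2, h3, h4, h5, hpi]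

end Pool.Agent.H44.SP
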