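import Pool.Agent.H44.SP.Cv
import Pool.Agent.H44.SP.Uq
import Pool.Agent.H44.SP.Hd
import Pool.Agent.H74.CB.Pol
import Pool.Agent.H74.CB.Mes

/-!
# [H44 SP Sl] Slices and the identity theorem
-/

set_option autoImplicit false

namespace Pool.Agent.H44.SP

open MeasureTheory Metric Pool.Agent.H74.CB Filter Topology

variable {n : ℕ}

theorem slice_pos (C1 : Set (V n)) (hC : MeasurableSet C1) (hpos : (volume : Measure (V n)) C1 ≠ 0) :
    (volume : Measure (V n)) {z : V n |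
      volume {θ : ℝ | θ ∈ Set.Ioo 0 (2 * Real.pi) ∧ ro θ z ∈ C1} ≠ 0} ≠ 0 := by
  intro h
  apply hpos
  refine flow_null ro ro_cont ro_mp (2 * Real.pi) (by positivity) C1 hC ?_
  rw [ae_iff]
  exact h

theorem un_ro (t : ℝ) (z : V n) : un (ro t z) = Complex.exp ((t : ℂ) * Complex.I) • un z := by
  have h1 : ‖ro t z‖ = ‖z‖ := by
    rw [ro, norm_smul, Complex.norm_exp_ofReal_mul_I, one_mul]
  rw [un, un, h1, ro, smul_comm]

theorem smul_un_mem (z : V n) (hz : z ≠ 0) (l : ℂ) (hl : ‖l‖ ≤ 1) : l • un z ∈ closedBall (0 : V n) 1 := by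
  rw [mem_closedBall_zero_iff, norm_smul, norm_un z hz, mul_one]; exact hl

theorem cone_zero (Φ : V n → ℂ) (hΦ : ContinuousOn Φ (closedBall (0 : V n) 1))
    (hF : ∀ ζ : V n, ‖ζ‖ = 1 → ∃ F : ℂ → ℂ, DifferentiableOn ℂ F (ball (0 : ℂ) 1) ∧
      (∀ l : ℂ, ‖l‖ < 1 → ‖l‖ * ‖F l‖ ≤ ‖Φ (l • ζ)‖) ∧ ∀ l : ℂ, ‖l‖ < 1 → F l = 0 → Φ (l • ζ) = 0)
    (C1 : Set (V n)) (hC : MeasurableSet C1) (hpos : (volume : Measure (V n)) C1 ≠ 0)
    (hsub : C1 ⊆ ball (0 : V n) 1 ∩ {0}ᶜ) (h0 : ∀ z ∈ C1, Φ (un z) = 0) :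
    (volume : Measure (V n)) {z | z ∈ ball (0 : V n) 1 ∧ Φ z = 0} ≠ 0 := by
  intro hcon
  refine slice_pos C1 hC hpos (measure_mono_null ?_ hcon)
  intro z hz
  have hz' : volume {θ : ℝ | θ ∈ Set.Ioo 0 (2 * Real.pi) ∧ ro θ z ∈ C1} ≠ 0 := hz
  obtain ⟨θ0, _, hθ0⟩ := nonempty_of_measure_ne_zero hz'
  have hnr : ‖ro θ0 z‖ = ‖z‖ := by
    rw [ro, norm_smul, Complex.norm_exp_ofReal_mul_I, one_mul]
  have hz1 : z ∈ ball (0 : V n) 1 := by
    have := (hsub hθ0).1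
    rw [mem_ball_zero_iff] at this ⊢
    rwa [hnr] at this
  have hz0 : z ≠ 0 := by
    intro h
    apply (hsub hθ0).2
    have : ‖ro θ0 z‖ = 0 := by rw [hnr, h, norm_zero]
    exact norm_eq_zero.mp this
  obtain ⟨F, hFd, hFb, hF0⟩ := hF (un z) (norm_un z hz0)
  have hM : ContinuousOn (fun l : ℂ => ‖Φ (l • un z)‖) (closedBall (0 : ℂ) 1) := by
    refine (hΦ.comp (f := fun l : ℂ => l • un z) ?_ ?_).norm
    · fun_prop
    · intro l hl
      exact smul_un_mem z hz0 l (mem_closedBall_zero_iff.mp hl)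
  have hu := uniq F hFd (fun l : ℂ => ‖Φ (l • un z)‖) hM hFb (by
    intro hnull
    apply hz'
    refine measure_mono_null ?_ hnull
    rintro θ ⟨hθ, hθC⟩
    refine ⟨hθ, ?_⟩
    show ‖Φ (Complex.exp ((θ : ℂ) * Complex.I) • un z)‖ = 0
    rw [← un_ro, h0 _ hθC, norm_zero])
  have hzn : ‖((‖z‖ : ℝ) : ℂ)‖ < 1 := by
    rw [Complex.norm_real, norm_norm]
    exact mem_ball_zero_iff.mp hz1
  refine ⟨hz1, ?_⟩
  have h1 := hF0 ((‖z‖ : ℝ) : ℂ) hzn (hu _ (mem_ball_zero_iff.mpr hzn))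
  have h2 : (((‖z‖ : ℝ) : ℂ)) • un z = z := norm_smul_un z hz0
  rwa [h2] at h1

theorem all_zero (hn : 1 ≤ n) (Φ : V n → ℂ) (hΦ : ContinuousOn Φ (ball (0 : V n) 1))
    (ha : ∀ a v : V n, ∀ t : ℝ, a + t • v ∈ ball (0 : V n) 1 →
      AnalyticAt ℝ (fun s : ℝ => Φ (a + s • v)) t)
    (hpos : (volume : Measure (V n)) {z | z ∈ ball (0 : V n) 1 ∧ Φ z = 0} ≠ 0) :
    ∀ z ∈ ball (0 : V n) 1, Φ z = 0 := by
  have h1 := ident hn (fun z => (Φ z).re) (Complex.continuous_re.comp_continuousOn hΦ)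
    (fun a v t h => (Complex.reCLM.analyticAt _).comp (ha a v t h)) (by
      intro h; apply hpos
      refine measure_mono_null ?_ h
      rintro z ⟨hz, h0⟩
      refine ⟨hz, ?_⟩
      show (Φ z).re = 0
      rw [h0, Complex.zero_re])
  have h2 := ident hn (fun z => (Φ z).im) (Complex.continuous_im.comp_continuousOn hΦ)
    (fun a v t h => (Complex.imCLM.analyticAt _).comp (ha a v t h)) (by
      intro h; apply hpos
      refine measure_mono_null ?_ h
      rintro z ⟨hz, h0⟩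
      refine ⟨hz, ?_⟩
      show (Φ z).im = 0
      rw [h0, Complex.zero_im])
  intro z hz
  exact Complex.ext (h1 z hz) (h2 z hz)

theorem isOpen_line (a v : V n) : IsOpen {τ : ℂ | a + τ • v ∈ ball (0 : V n) 1} := by
  have : Continuous fun τ : ℂ => a + τ • v := by fun_prop
  exact isOpen_ball.preimage this

theorem ana_line (φ : ℂ → ℂ) (U : Set ℂ) (hU : IsOpen U) (hφ : DifferentiableOn ℂ φ U) (t : ℝ) (ht : (t : ℂ) ∈ U) :
    AnalyticAt ℝ (fun s : ℝ => φ s) t := by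
  have h1 : AnalyticAt ℝ φ ((t : ℂ)) := (hφ.analyticAt (hU.mem_nhds ht)).restrictScalars
  exact AnalyticAt.comp (g := φ) (f := fun s : ℝ => (s : ℂ)) h1 (Complex.ofRealCLM.analyticAt t)

theorem diff_line (f : V n → ℂ) (hf' : DifferentiableOn ℂ f (ball (0 : V n) 1)) (a v : V n) :
    DifferentiableOn ℂ (fun τ : ℂ => f (a + τ • v)) {τ : ℂ | a + τ • v ∈ ball (0 : V n) 1} := by
  refine hf'.comp (f := fun τ : ℂ => a + τ • v) ?_ fun τ hτ => hτ
  fun_prop

theorem ana_f (f : V n → ℂ) (hf' : DifferentiableOn ℂ f (ball (0 : V n) 1)) (a v : V n) (t : ℝ)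
    (ht : a + t • v ∈ ball (0 : V n) 1) : AnalyticAt ℝ (fun s : ℝ => f (a + s • v)) t :=
  ana_line (fun τ : ℂ => f (a + τ • v)) _ (isOpen_line a v) (diff_line f hf' a v) t ht

theorem ana_tf (i j : Fin n) (f tf : V n → ℂ) (hf' : DifferentiableOn ℂ f (ball (0 : V n) 1)) (hT : Tg i j f tf)
    (a v : V n) (t : ℝ) (ht : a + t • v ∈ ball (0 : V n) 1) :
    AnalyticAt ℝ (fun s : ℝ => tf (a + s • v)) t := by
  have h1 := ana_line _ _ (isOpen_line a v) (hol_fderiv f hf' a v (jj i j a)) t ht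
  have h2 := ana_line _ _ (isOpen_line a v) (hol_fderiv f hf' a v (jj i j v)) t ht
  have h3 : AnalyticAt ℝ (fun s : ℝ => (s : ℂ)) t := Complex.ofRealCLM.analyticAt t
  refine (h1.add (h3.mul h2)).congr ?_
  have hU : {s : ℝ | a + s • v ∈ ball (0 : V n) 1} ∈ 𝓝 t := by
    have : Continuous fun s : ℝ => a + s • v := by fun_prop
    exact (isOpen_ball.preimage this).mem_nhds ht
  filter_upwards [hU] with s hs
  have e1 : jj i j (a + s • v) = jj i j a + (s : ℂ) • jj i j v := by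
    rw [jj_add]
    have := jj_smul i j (s : ℂ) v
    rw [Complex.conj_ofReal] at this
    rw [← this]; rfl
  show fderiv ℂ f (a + (s : ℂ) • v) (jj i j a) + (s : ℂ) * fderiv ℂ f (a + (s : ℂ) • v) (jj i j v) = tf (a + s • v)
  rw [hT.2 _ hs, e1, map_add, map_smul, smul_eq_mul]
  rfl

/-- the tangential Wronskian vanishes in the ball -/
theorem psi_zero (hn : 1 ≤ n) (i j : Fin n) (hij : i ≠ j) (f g tf tg : V n → ℂ)
    (hf : ContinuousOn f (closedBall (0 : V n) 1)) (hf' : DifferentiableOn ℂ f (ball (0 : V n) 1))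
    (hg : ContinuousOn g (closedBall (0 : V n) 1)) (hg' : DifferentiableOn ℂ g (ball (0 : V n) 1))
    (hTf : Tg i j f tf) (hTg : Tg i j g tg)
    (hpos : (volume : Measure (V n)) {z | z ∈ (ball (0 : V n) 1) ∩ {0}ᶜ ∧ ‖f (un z)‖ = ‖g (un z)‖} ≠ 0) :
    ∀ z ∈ ball (0 : V n) 1, g z * tf z - f z * tg z = 0 := by
  have hΨ : ContinuousOn (fun z => g z * tf z - f z * tg z) (closedBall (0 : V n) 1) :=
    (hg.mul hTf.1).sub (hf.mul hTg.1)
  have hsub : (ball (0 : V n) 1) ∩ {0}ᶜ ⊆ ({0}ᶜ : Set (V n)) := Set.inter_subset_right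
  refine all_zero hn _ (hΨ.mono ball_subset_closedBall) (fun a v t ht => ?_) ?_
  · exact ((ana_f g hg' a v t ht).mul (ana_tf i j f tf hf' hTf a v t ht)).sub
      ((ana_f f hf' a v t ht).mul (ana_tf i j g tg hg' hTg a v t ht))
  · refine cone_zero (fun z => g z * tf z - f z * tg z) hΨ ?_
      {z | (z ∈ (ball (0 : V n) 1) ∩ {0}ᶜ ∧ ‖f (un z)‖ - ‖g (un z)‖ = 0) ∧
        (z ∈ (ball (0 : V n) 1) ∩ {0}ᶜ ∧ g (un z) * tf (un z) - f (un z) * tg (un z) = 0)} ?_ ?_ ?_ ?_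
    · intro ζ hζ
      have hlb : ∀ l : ℂ, ‖l‖ < 1 → l • ζ ∈ ball (0 : V n) 1 := by
        intro l hl; rw [mem_ball_zero_iff, norm_smul, hζ, mul_one]; exact hl
      have hkey : ∀ l : ℂ, ‖l‖ < 1 → g (l • ζ) * tf (l • ζ) - f (l • ζ) * tg (l • ζ) =
          (starRingEnd ℂ) l * (g (l • ζ) * fderiv ℂ f (l • ζ) (jj i j ζ) - f (l • ζ) * fderiv ℂ g (l • ζ) (jj i j ζ)) := by
        intro l hl
        rw [hTf.2 _ (hlb l hl), hTg.2 _ (hlb l hl), jj_smul, map_smul, map_smul, smul_eq_mul, smul_eq_mul]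
        ring
      refine ⟨fun l => g (l • ζ) * fderiv ℂ f (l • ζ) (jj i j ζ) - f (l • ζ) * fderiv ℂ g (l • ζ) (jj i j ζ), ?_, ?_, ?_⟩
      · have hU : ball (0 : ℂ) 1 ⊆ {τ : ℂ | (0 : V n) + τ • ζ ∈ ball (0 : V n) 1} := by
          intro l hl
          show (0 : V n) + l • ζ ∈ ball (0 : V n) 1
          rw [zero_add]
          exact hlb l (mem_ball_zero_iff.mp hl)
        have q1 := (hol_fderiv f hf' 0 ζ (jj i j ζ)).mono hU
        have q2 := (hol_fderiv g hg' 0 ζ (jj i j ζ)).mono hU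
        have q3 := (diff_line f hf' 0 ζ).mono hU
        have q4 := (diff_line g hg' 0 ζ).mono hU
        simp only [zero_add] at q1 q2 q3 q4
        exact (q4.mul q1).sub (q3.mul q2)
      · intro l hl
        rw [hkey l hl, norm_mul, RCLike.norm_conj]
      · intro l hl h0
        rw [hkey l hl]
        have h0' : g (l • ζ) * fderiv ℂ f (l • ζ) (jj i j ζ) - f (l • ζ) * fderiv ℂ g (l • ζ) (jj i j ζ) = 0 := h0
        rw [h0', mul_zero]
    · have m1 := Pool.Agent.H44.CM.measurableSet_zero (F := ℝ) isOpen_pb (f := fun z : V n => ‖f (un z)‖ - ‖g (un z)‖)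
        (((cont_un f hf).mono hsub).norm.sub ((cont_un g hg).mono hsub).norm)
      have m2 := Pool.Agent.H44.CM.measurableSet_zero (F := ℂ) isOpen_pb
        (f := fun z : V n => g (un z) * tf (un z) - f (un z) * tg (un z))
        ((cont_un _ hΨ).mono hsub)
      exact m1.inter m2
    · intro h1
      apply hpos
      refine measure_mono_null ?_ (measure_union_null h1 (tang_null i j hij f g tf tg hf hf' hg hg' hTf hTg))
      rintro z ⟨hz, hE⟩
      by_cases h2 : g (un z) * tf (un z) - f (un z) * tg (un z) = 0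
      · exact Or.inl ⟨⟨hz, sub_eq_zero.mpr hE⟩, hz, h2⟩
      · exact Or.inr ⟨hz, hE, h2⟩
    · rintro z ⟨⟨hz, _⟩, _⟩
      exact hz
    · rintro z ⟨_, _, hz⟩
      exact hz

/-- the known case `g = 0` -/
theorem van_zero (hn : 1 ≤ n) (f : V n → ℂ)
    (hf : ContinuousOn f (closedBall (0 : V n) 1)) (hf' : DifferentiableOn ℂ f (ball (0 : V n) 1))
    (hpos : (volume : Measure (V n)) {z | z ∈ (ball (0 : V n) 1) ∩ {0}ᶜ ∧ f (un z) = 0} ≠ 0) :
    ∀ z ∈ ball (0 : V n) 1, f z = 0 := by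
  have hsub : (ball (0 : V n) 1) ∩ {0}ᶜ ⊆ ({0}ᶜ : Set (V n)) := Set.inter_subset_right
  refine all_zero hn _ (hf.mono ball_subset_closedBall) (fun a v t ht => ana_f f hf' a v t ht) ?_
  refine cone_zero f hf ?_ _ (Pool.Agent.H44.CM.measurableSet_zero (F := ℂ) isOpen_pb
        (f := fun z : V n => f (un z)) ((cont_un _ hf).mono hsub)) hpos (fun z hz => hz.1) (fun z hz => hz.2)
  intro ζ hζ
  have hlb : ∀ l : ℂ, ‖l‖ < 1 → l • ζ ∈ ball (0 : V n) 1 := by
    intro l hl; rw [mem_ball_zero_iff, norm_smul, hζ, mul_one]; exact hl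
  refine ⟨fun l => f (l • ζ), ?_, ?_, ?_⟩
  · have hU : ball (0 : ℂ) 1 ⊆ {τ : ℂ | (0 : V n) + τ • ζ ∈ ball (0 : V n) 1} := by
      intro l hl
      show (0 : V n) + l • ζ ∈ ball (0 : V n) 1
      rw [zero_add]
      exact hlb l (mem_ball_zero_iff.mp hl)
    have q3 := (diff_line f hf' 0 ζ).mono hU
    simp only [zero_add] at q3
    exact q3
  · intro l hl
    exact mul_le_of_le_one_left (norm_nonneg _) hl.le
  · intro l _ h
    exact h

end Pool.Agent.H44.SP
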